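import Pool.Agent.U479.DD.Fin
import Pool.Agent.U479.DP.SegreOpen

set_option autoImplicit false

/-!
# Near-uniform multiplicities and any number of double and simple points
-/

namespace Pool.Agent.U479.DD

open MvPolynomial Pool.Agent.W609 Pool.Agent.W609.CR Pool.Agent.TH167.SH Pool.Agent.TH167.TT
  Pool.Agent.U479.DP Pool.Agent.H932R3

/-- The system of the points of `S` is empty, or the points of `S` impose independent conditions in
the degree below. -/
theorem two_cases {K : Type} [Field K] [CharZero K] {s : ℕ} {P : Fin s → Fin 2 → K}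
    (hP : AlgebraicIndependent ℚ (fun ij : Fin s × Fin 2 => P ij.1 ij.2)) {w : Fin s → ℕ}
    {S : Finset (Fin s)} (hw2 : ∀ j, j ∉ S → w j ≤ 2) {d : ℕ}
    (h : Module.finrank K ↥(VS (fun j => aff (P j)) (low w S) d) = 0 ∨
      ∃ d', d = d' + 1 ∧ Module.finrank K ↥(VS (fun j => aff (P j)) (low w S) d') +
        ∑ j, (low w S j + 1).choose 2 = (d' + 2).choose 2 ∧ ∀ j ∈ S, 3 * w j < 2 * (d' + 2)) :
    ExpDim K w P d ∨ (chi d w = 0 ∧ Module.finrank K ↥(VS (fun j => aff (P j)) w d) = 1 ∧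
      ∃ (E : ℕ) (U : Fin s → ℕ), d = 2 * E ∧ (∀ j, w j = 2 * U j) ∧
        Module.finrank K ↥(VS (fun j => aff (P j)) U E) = 1) := by
  classical
  rw [Pool.Agent.TH442.NF.expDim_iff]
  rcases h with h | ⟨d', rfl, h, h3⟩
  · left
    have h1 : Module.finrank K ↥(VS (fun j => aff (P j)) w d) ≤
        Module.finrank K ↥(VS (fun j => aff (P j)) (low w S) d) := by
      have hf := vs_fin (fun j => aff (P j)) (low w S) d
      refine Submodule.finrank_mono (vs_le fun j => ?_)
      unfold low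
      split_ifs <;> omega
    have h2 := chi_le_dim P d w
    omega
  · rcases fin_main hP hw2 h (fun j hj => Or.inl (h3 j hj)) with h4 | ⟨h4, h5, h6⟩
    · exact Or.inl h4
    · exact Or.inr ⟨h5, h4, h6⟩

theorem deg_mono {K : Type} [Field K] {s : ℕ} (P : Fin s → Fin 2 → K) (w : Fin s → ℕ) {d e : ℕ}
    (hde : d ≤ e) (h : Module.finrank K ↥(VS (fun j => aff (P j)) w e) = 0) :
    Module.finrank K ↥(VS (fun j => aff (P j)) w d) = 0 := by
  by_contra hne
  obtain ⟨f, hf, hf0⟩ := exists_mem (Nat.pos_of_ne_zero hne)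
  rw [mem_VS] at hf
  have h1 : X 2 ^ (e - d) * f ∈ VS (fun j => aff (P j)) w e := by
    rw [mem_VS]
    refine ⟨?_, fun j => Ideal.mul_mem_left _ _ (hf.2 j)⟩
    have h2 := (isHomogeneous_X_pow (R := K) (2 : Fin 3) (e - d)).mul hf.1
    rwa [show e - d + d = e by omega] at h2
  have h2 := pos_of_mem h1 (mul_ne_zero (pow_ne_zero _ (X_ne_zero 2)) hf0)
  omega

/-- the arithmetic of the exceptional case -/
theorem no_double {k A E n : ℕ} (hk : 10 ≤ k) (h0 : 1 ≤ A)
    (h1 : (E + 2).choose 2 = k * (A + 1).choose 2 + n + 1)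
    (h2 : (2 * E + 2).choose 2 = k * (2 * A + 1).choose 2 + 3 * n) : False := by
  have c1 : ∀ a : ℕ, 2 * ((a + 1).choose 2) = (a + 1) * a := fun a => by
    rw [Nat.choose_two_right]
    have : 2 ∣ (a + 1) * (a + 1 - 1) := (Nat.even_mul_pred_self (a + 1)).two_dvd
    rw [Nat.mul_div_cancel' this]
    rfl
  have a1 := c1 (E + 1)
  have a2 := c1 A
  have a3 := c1 (2 * E + 1)
  have a4 := c1 (2 * A)
  zify at hk h1 h2 a1 a2 a3 a4
  have b1 : ((E : ℤ) + 2) * (E + 1) = k * ((A + 1) * A) + 2 * n + 2 := by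
    have e1 : ((E : ℤ) + 1 + 1) * (E + 1) = (E + 2) * (E + 1) := by ring
    have e2 : (((E + 1 + 1).choose 2 : ℕ) : ℤ) = ((E + 2).choose 2 : ℕ) := rfl
    rw [e2, h1] at a1
    linear_combination (-1 : ℤ) * a1 + (k : ℤ) * a2
  have b2 : (2 * (E : ℤ) + 2) * (2 * E + 1) = k * ((2 * A + 1) * (2 * A)) + 6 * n := by
    have e2 : (((2 * E + 1 + 1).choose 2 : ℕ) : ℤ) = ((2 * E + 2).choose 2 : ℕ) := rfl
    rw [e2, h2] at a3
    linear_combination (-1 : ℤ) * a3 + (k : ℤ) * a4
  have hn : (0 : ℤ) ≤ n := Nat.cast_nonneg n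
  have hA : (0 : ℤ) ≤ A := Nat.cast_nonneg A
  have hE : (0 : ℤ) ≤ E := Nat.cast_nonneg E
  -- k A (A - 1) = (E - 1) (E - 2), k A ≤ 3 E - 1
  have b3 : ((E : ℤ) - 1) * (E - 2) = k * (A * (A - 1)) := by
    linear_combination b2 - 3 * b1
  have b4 : (k : ℤ) * A ≤ 3 * E - 1 := by nlinarith
  have hA1 : (1 : ℤ) ≤ A := by exact_mod_cast h0
  have b5 : 10 * (A : ℤ) ≤ 3 * E - 1 := by nlinarith
  have b6 : (k : ℤ) * A * (A - 1) ≤ (3 * E - 1) * (A - 1) := by
    apply mul_le_mul_of_nonneg_right b4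
    linarith
  nlinarith

/-- The part of near-uniform multiplicities: outside two consecutive degrees the system is empty or
the conditions are independent in the degree below. -/
theorem near_low {k n m : ℕ} (hk : 10 ≤ k) (hm : 1 ≤ m) (e : Fin k ↪ Fin n) {v : Fin k → ℕ}
    (hv : ∀ i, v i = m ∨ v i = m + 1) {d0 c1 : ℕ}
    (hd0 : ∀ d : ℕ, d ≠ d0 → Pool.Agent.TH885.NW.upW k <
        2 * (d : ℝ) + 3 - (√(k : ℝ) + 2 * (∑ i, (v i : ℝ)) / √(k : ℝ)) ∨
      2 * (d : ℝ) + 3 - (√(k : ℝ) + 2 * (∑ i, (v i : ℝ)) / √(k : ℝ)) <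
        - Pool.Agent.TH885.NW.loW k)
    (hc1 : ∑ i, (v i + 1).choose 2 ≤ (c1 + 2).choose 2)
    (hc2 : ∀ d, d < c1 → (d + 2).choose 2 < ∑ i, (v i + 1).choose 2)
    {w : Fin n → ℕ} (hw : ∀ i, w (e i) = v i) {K : Type} [Field K] [CharZero K]
    {P : Fin n → Fin 2 → K} (hP : AlgebraicIndependent ℚ (fun ij : Fin n × Fin 2 => P ij.1 ij.2))
    {d : ℕ} (hd : d ≠ (if d0 + 1 = c1 then d0 else c1))
    (hd' : d ≠ (if d0 + 1 = c1 then d0 else c1) + 1) :
    Module.finrank K ↥(VS (fun j => aff (P j)) (low w (Finset.univ.map e)) d) = 0 ∨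
      ∃ d', d = d' + 1 ∧
        Module.finrank K ↥(VS (fun j => aff (P j)) (low w (Finset.univ.map e)) d') +
        ∑ j, (low w (Finset.univ.map e) j + 1).choose 2 = (d' + 2).choose 2 ∧
        ∀ j ∈ Finset.univ.map e, 3 * w j < 2 * (d' + 2) := by
  classical
  have hsum : ∑ j, (low w (Finset.univ.map e) j + 1).choose 2 = ∑ i, (v i + 1).choose 2 := by
    have h1 : ∀ j, (low w (Finset.univ.map e) j + 1).choose 2 =
        if j ∈ Finset.univ.map e then (w j + 1).choose 2 else 0 := by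
      intro j
      unfold low
      by_cases hj : j ∈ Finset.univ.map e
      · rw [if_pos hj, if_pos hj]
      · rw [if_neg hj, if_neg hj]
        rfl
    rw [Finset.sum_congr rfl fun j _ => h1 j, Finset.sum_ite_mem, Finset.univ_inter,
      Finset.sum_map]
    exact Finset.sum_congr rfl fun i _ => by rw [hw]
  have hexp : ∀ c, c ≠ d0 →
      Module.finrank K ↥(VS (fun j => aff (P j)) (low w (Finset.univ.map e)) c) =
        (c + 2).choose 2 - ∑ i, (v i + 1).choose 2 := by
    intro c hc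
    have h1 := near_part hk hm e (w := w) (fun i => by rw [hw]; exact hv i) (d := c) (by
      have h2 := hd0 c hc
      have h3 : ∑ i, (v i : ℝ) = ∑ i, (w (e i) : ℝ) := Finset.sum_congr rfl fun i _ => by rw [hw]
      rw [← h3]
      exact h2) K P hP
    have h2 := (Pool.Agent.TH442.NF.expDim_iff P c _).1 h1
    have h3 : chi c (low w (Finset.univ.map e)) =
        ((c + 2).choose 2 : ℤ) - ((∑ i, (v i + 1).choose 2 : ℕ) : ℤ) := by
      rw [chi_cast, hsum]
    have h4 : (Module.finrank K ↥(VS (fun j => aff (P j)) (low w (Finset.univ.map e)) c) : ℤ) =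
        max 0 (chi c (low w (Finset.univ.map e))) := h2
    rw [h3] at h4
    omega
  have hsurj : ∀ c, c ≠ d0 → c1 ≤ c → Function.Surjective
      (H248R5.ev (low w (Finset.univ.map e)) P c) := by
    intro c hc hc'
    refine H248R5.surj_of_ind ?_
    have h1 := hexp c hc
    rw [vs_eq_forms] at h1
    rw [h1, hsum]
    have h2 : (c1 + 2).choose 2 ≤ (c + 2).choose 2 := Nat.choose_le_choose 2 (by omega)
    omega
  have hmult : ∀ c, c1 ≤ c → ∀ j ∈ Finset.univ.map e, 3 * w j < 2 * (c + 2) := by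
    intro c hc j hj
    obtain ⟨i, -, rfl⟩ := Finset.mem_map.1 hj
    rw [hw]
    have h1 : k * (m + 1).choose 2 ≤ (c + 2).choose 2 := by
      calc k * (m + 1).choose 2 = ∑ _i : Fin k, (m + 1).choose 2 := by
            rw [Finset.sum_const, Finset.card_univ, Fintype.card_fin, smul_eq_mul]
        _ ≤ ∑ i, (v i + 1).choose 2 := Finset.sum_le_sum fun i _ =>
            Nat.choose_le_choose 2 (by rcases hv i with h | h <;> omega)
        _ ≤ (c1 + 2).choose 2 := hc1
        _ ≤ (c + 2).choose 2 := Nat.choose_le_choose 2 (by omega)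
    have c2 : ∀ a : ℕ, 2 * ((a + 1).choose 2) = (a + 1) * a := fun a => by
      rw [Nat.choose_two_right]
      have : 2 ∣ (a + 1) * (a + 1 - 1) := (Nat.even_mul_pred_self (a + 1)).two_dvd
      rw [Nat.mul_div_cancel' this]
      rfl
    have c3 := c2 m
    have c4 := c2 (c + 1)
    have h2 : k * ((m + 1) * m) ≤ (c + 2) * (c + 1) := by
      have e1 : (c + 1 + 1).choose 2 = (c + 2).choose 2 := rfl
      calc k * ((m + 1) * m) = 2 * (k * (m + 1).choose 2) := by rw [← c3]; ring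
        _ ≤ 2 * (c + 2).choose 2 := Nat.mul_le_mul_left 2 h1
        _ = (c + 2) * (c + 1) := by rw [← e1, c4]
    have h3 : 10 * ((m + 1) * m) ≤ (c + 2) * (c + 1) :=
      (Nat.mul_le_mul_right _ hk).trans h2
    have h4 : 3 * m < c + 1 := by
      by_contra hcon
      push Not at hcon
      have h5 : (c + 2) * (c + 1) ≤ (3 * m + 1) * (3 * m) :=
        Nat.mul_le_mul (by omega) hcon
      nlinarith
    rcases hv i with h | h <;> omega
  by_cases hcase : d0 + 1 = c1
  · rw [if_pos hcase] at hd hd'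
    rcases Nat.lt_or_ge d c1 with h1 | h1
    · left
      rw [hexp d hd]
      have := hc2 d h1
      omega
    · right
      obtain ⟨d', rfl⟩ : ∃ d', d = d' + 1 := ⟨d - 1, by omega⟩
      refine ⟨d', rfl, ?_, hmult d' (by omega)⟩
      have h2 := H248R6.finrank_of_surj (hsurj d' (by omega) (by omega))
      rw [← vs_eq_forms] at h2
      exact h2
  · rw [if_neg hcase] at hd hd'
    rcases Nat.lt_or_ge d c1 with h1 | h1
    · left
      by_cases hd2 : d = d0
      · have h3 := hexp (c1 - 1) (by omega)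
        have h4 := hc2 (c1 - 1) (by omega)
        rw [Nat.sub_eq_zero_of_le h4.le] at h3
        exact deg_mono P _ (by omega) h3
      · rw [hexp d hd2]
        have := hc2 d h1
        omega
    · right
      obtain ⟨d', rfl⟩ : ∃ d', d = d' + 1 := ⟨d - 1, by omega⟩
      refine ⟨d', rfl, ?_, hmult d' (by omega)⟩
      have hs : Function.Surjective (H248R5.ev (low w (Finset.univ.map e)) P d') := by
        by_cases hd2 : d' = d0
        · have h3 := surj_succ (hsurj (d' - 1) (by omega) (by omega))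
          rwa [show d' - 1 + 1 = d' by omega] at h3
        · exact hsurj d' hd2 (by omega)
      have h2 := H248R6.finrank_of_surj hs
      rw [← vs_eq_forms] at h2
      exact h2

/-- **Near-uniform multiplicities and any number of double and simple points.** -/
theorem near_all {k m : ℕ} (hk : 10 ≤ k) (hm : 1 ≤ m) {v : Fin k → ℕ}
    (hv : ∀ i, v i = m ∨ v i = m + 1) :
    ∃ c e : ℕ, ∀ d : ℕ, d ≠ c → d ≠ c + 1 → d ≠ e → ∀ {n : ℕ} (ι : Fin k ↪ Fin n)
      {w : Fin n → ℕ} (_ : ∀ i, w (ι i) = v i) (_ : ∀ j, j ∉ Finset.univ.map ι → w j ≤ 2)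
      {K : Type} [Field K] [CharZero K] {P : Fin n → Fin 2 → K}
      (_ : AlgebraicIndependent ℚ (fun ij : Fin n × Fin 2 => P ij.1 ij.2)), ExpDim K w P d := by
  classical
  obtain ⟨d0, hd0⟩ := Pool.Agent.TH885.NW.exists_deg hk
    (√(k : ℝ) + 2 * (∑ i, (v i : ℝ)) / √(k : ℝ))
  have hex : ∃ c, ∑ i, (v i + 1).choose 2 ≤ (c + 2).choose 2 := by
    refine ⟨∑ i, (v i + 1).choose 2, ?_⟩
    generalize ∑ i, (v i + 1).choose 2 = a
    have h1 : (a + 1 + 1).choose 2 = (a + 1).choose 1 + (a + 1).choose 2 :=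
      Nat.choose_succ_succ (a + 1) 1
    rw [Nat.choose_one_right] at h1
    rw [show a + 2 = a + 1 + 1 by omega]
    omega
  obtain ⟨c1, hc1⟩ : ∃ c1, c1 = Nat.find hex := ⟨_, rfl⟩
  have hc1' : ∑ i, (v i + 1).choose 2 ≤ (c1 + 2).choose 2 := by
    rw [hc1]
    exact Nat.find_spec hex
  have hc2 : ∀ d, d < c1 → (d + 2).choose 2 < ∑ i, (v i + 1).choose 2 := by
    intro d hd
    have := Nat.find_min hex (by rw [← hc1]; exact hd)
    omega
  obtain ⟨e, he⟩ : ∃ e : ℕ, ∀ A : ℕ, (∀ i, v i = 2 * A) → ∀ E, 2 * E ≠ e →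
      (Pool.Agent.TH885.NW.upW k <
        2 * (E : ℝ) + 3 - (√(k : ℝ) + 2 * (∑ _i : Fin k, (A : ℝ)) / √(k : ℝ)) ∨
      2 * (E : ℝ) + 3 - (√(k : ℝ) + 2 * (∑ _i : Fin k, (A : ℝ)) / √(k : ℝ)) <
        - Pool.Agent.TH885.NW.loW k) := by
    by_cases hA : ∃ A, ∀ i, v i = 2 * A
    · obtain ⟨A, hA⟩ := hA
      obtain ⟨dA, hdA⟩ := Pool.Agent.TH885.NW.exists_deg hk
        (√(k : ℝ) + 2 * (∑ _i : Fin k, (A : ℝ)) / √(k : ℝ))
      refine ⟨2 * dA, fun A' hA' E hE => ?_⟩
      have hk0 : 0 < k := by omega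
      have h1 := hA ⟨0, hk0⟩
      have h2 := hA' ⟨0, hk0⟩
      have h3 : A' = A := by omega
      rw [h3]
      exact hdA E (by omega)
    · exact ⟨0, fun A' hA' => absurd ⟨A', hA'⟩ hA⟩
  refine ⟨if d0 + 1 = c1 then d0 else c1, e, fun d h1 h2 h3 n ι w hw hw2 K _ _ P hP => ?_⟩
  rcases two_cases hP hw2 (near_low hk hm ι hv hd0 hc1' hc2 hw hP h1 h2) with h4 |
    ⟨h4, h5, E, U, h6, h7, h8⟩
  · exact h4
  exfalso
  have hk0 : 0 < k := by omega
  -- the multiplicities of the half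
  have hUv : ∀ i, v i = 2 * U (ι i) := fun i => by rw [← hw, h7]
  obtain ⟨A, hA⟩ : ∃ A, A = U (ι ⟨0, hk0⟩) := ⟨_, rfl⟩
  have hUA : ∀ i, U (ι i) = A := by
    intro i
    have a1 := hUv i
    have a2 := hUv ⟨0, hk0⟩
    rw [← hA] at a2
    rcases hv i with h | h <;> rcases hv ⟨0, hk0⟩ with h' | h' <;> omega
  have hvA : ∀ i, v i = 2 * A := fun i => by rw [hUv, hUA]
  have hA1 : 1 ≤ A := by
    have a1 := hvA ⟨0, hk0⟩
    rcases hv ⟨0, hk0⟩ with h | h <;> omega
  have hS : ∀ i, ι i ∈ Finset.univ.map ι := fun i => Finset.mem_map_of_mem ι (Finset.mem_univ i)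
  have k1 := near_part hk hA1 ι (w := U) (fun i => Or.inl (hUA i)) (d := E) (by
    have h9 := he A hvA E (by omega)
    have h10 : ∑ _i : Fin k, (A : ℝ) = ∑ i, (U (ι i) : ℝ) :=
      Finset.sum_congr rfl fun i _ => by rw [hUA]
    rw [← h10]
    exact h9) K P hP
  have k2 := (Pool.Agent.TH442.NF.expDim_iff P E _).1 k1
  -- the simple points of the half
  obtain ⟨T, hT⟩ : ∃ T : Finset (Fin n), T = Finset.univ.filter fun j =>
    j ∉ Finset.univ.map ι ∧ U j = 1 := ⟨_, rfl⟩
  have hTm : ∀ j, j ∈ T ↔ j ∉ Finset.univ.map ι ∧ U j = 1 := fun j => by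
    rw [hT, Finset.mem_filter]
    simp only [Finset.mem_univ, true_and]
  have hU1 : ∀ j, j ∉ Finset.univ.map ι → U j ≤ 1 := fun j hj => by
    have a1 := hw2 j hj
    have a2 := h7 j
    omega
  have k3 := simple_set hP (w := fun j => if j ∈ Finset.univ.map ι then U j else 0) (d := E) T
    (fun j hj => by
      beta_reduce
      rw [if_neg ((hTm j).1 hj).1])
  have k4 : (fun j => if j ∈ T then 1 else (fun j => if j ∈ Finset.univ.map ι then U j else 0) j) =
      U := by
    funext j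
    beta_reduce
    by_cases hj : j ∈ Finset.univ.map ι
    · rw [if_neg (fun h => ((hTm j).1 h).1 hj), if_pos hj]
    · have a1 := hU1 j hj
      by_cases hj1 : U j = 1
      · rw [if_pos ((hTm j).2 ⟨hj, hj1⟩), hj1]
      · rw [if_neg (fun h => hj1 ((hTm j).1 h).2), if_neg hj]
        omega
  rw [k4, h8] at k3
  have s1 : ∑ j, ((if j ∈ Finset.univ.map ι then U j else 0) + 1).choose 2 =
      k * (A + 1).choose 2 := by
    have a1 : ∀ j, ((if j ∈ Finset.univ.map ι then U j else 0) + 1).choose 2 =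
        if j ∈ Finset.univ.map ι then (U j + 1).choose 2 else 0 := by
      intro j
      by_cases hj : j ∈ Finset.univ.map ι
      · rw [if_pos hj, if_pos hj]
      · rw [if_neg hj, if_neg hj]
        rfl
    rw [Finset.sum_congr rfl fun j _ => a1 j, Finset.sum_ite_mem, Finset.univ_inter,
      Finset.sum_map, Finset.sum_congr rfl fun i _ => by rw [hUA i], Finset.sum_const,
      Finset.card_univ, Fintype.card_fin, smul_eq_mul]
  have s2 : ∑ j, (w j + 1).choose 2 = k * (2 * A + 1).choose 2 + 3 * T.card := by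
    have a1 : ∀ j, (w j + 1).choose 2 = (if j ∈ Finset.univ.map ι then (w j + 1).choose 2 else 0) +
        if j ∈ T then 3 else 0 := by
      intro j
      by_cases hj : j ∈ Finset.univ.map ι
      · rw [if_pos hj, if_neg (fun h => ((hTm j).1 h).1 hj), add_zero]
      · have a2 := hU1 j hj
        rw [if_neg hj, h7]
        by_cases hj1 : U j = 1
        · rw [if_pos ((hTm j).2 ⟨hj, hj1⟩), hj1]
          rfl
        · rw [if_neg (fun h => hj1 ((hTm j).1 h).2), show U j = 0 by omega]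
          rfl
    rw [Finset.sum_congr rfl fun j _ => a1 j, Finset.sum_add_distrib, Finset.sum_ite_mem,
      Finset.univ_inter, Finset.sum_map, Finset.sum_congr rfl fun i _ => by rw [h7, hUA i],
      Finset.sum_const, Finset.card_univ, Fintype.card_fin, smul_eq_mul, Finset.sum_ite_mem,
      Finset.univ_inter, Finset.sum_const, smul_eq_mul]
    ring
  have k5 : chi E (fun j => if j ∈ Finset.univ.map ι then U j else 0) =
      ((E + 2).choose 2 : ℤ) - ((k * (A + 1).choose 2 : ℕ) : ℤ) := by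
    rw [chi_cast, s1]
  rw [k5] at k2
  rw [chi_cast, s2, h6] at h4
  refine no_double (n := T.card) hk hA1 (E := E) ?_ ?_
  · omega
  · omega

end Pool.Agent.U479.DD
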