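import Pool.Agent.U479.DD.Main

set_option autoImplicit false

/-!
# Any number of double points
-/

namespace Pool.Agent.U479.DD

open MvPolynomial Pool.Agent.W609 Pool.Agent.W609.CR Pool.Agent.TH167.SH Pool.Agent.TH167.TT
  Pool.Agent.U479.DP

variable {K : Type} [Field K] [CharZero K]

/-- The exceptional case: the double of a rigid curve. -/
def Exc (P : ℕ → Fin 2 → K) (w : ℕ → ℕ) (d : ℕ) (n : ℕ) : Prop :=
  H P w d = 3 * n ∧ ∃ (E : ℕ) (U : ℕ → ℕ), d = 2 * E ∧ (∀ j, w j = 2 * U j) ∧ H P U E = n + 1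

theorem bp_split {m : ℕ} {I : Finset ℕ} {i : ℕ} (hi : i ∈ I) (w : ℕ → ℕ) :
    w + bp m (I.erase i) + bp m {i} = w + bp m I := by
  funext j
  simp only [Pi.add_apply]
  by_cases hj : j = i
  · subst hj
    rw [bp_not (Finset.notMem_erase j I), bp_self, bp_mem hi]
    omega
  · rw [bp_ne hj]
    by_cases hjI : j ∈ I
    · rw [bp_mem hjI, bp_mem (Finset.mem_erase.2 ⟨hj, hjI⟩), add_zero]
    · rw [bp_not hjI, bp_not (fun h => hjI (Finset.mem_erase.1 h).2)]

theorem bp_mono {m : ℕ} {I J : Finset ℕ} (h : J ⊆ I) (j : ℕ) : bp m J j ≤ bp m I j := by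
  by_cases hj : j ∈ J
  · rw [bp_mem hj, bp_mem (h hj)]
  · rw [bp_not hj]
    omega

/-- **Double points added to a nonspecial system.** -/
theorem add_double {P : ℕ → Fin 2 → K} (hP : Gen P) {w : ℕ → ℕ} (hw : Fs w) {d : ℕ}
    (h1 : H P w (d + 1) = H P w d + (d + 2))
    (h2 : ∀ p, 1 ≤ w p → H P (fun j => w j - bp 1 {p} j) d + (d + 2) ≤ H P w (d + 1) + w p)
    (h3 : ∀ p, 3 * w p < 2 * (d + 2) ∨ H P w (d + 1) < 3 * (d + 2 - w p)) : ∀ (n : ℕ) (I : Finset ℕ) (_ : I.card = n)
    (_ : ∀ j ∈ I, w j = 0), H P (w + bp 2 I) (d + 1) = H P w (d + 1) - 3 * n ∨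
      H P (w + bp 2 I) (d + 1) = 1 ∧ Exc P w (d + 1) n := by
  classical
  intro n
  induction n using Nat.strong_induction_on with
  | _ n ih =>
    intro I hIn hI
    rcases Nat.eq_zero_or_pos n with hn | hn
    · left
      rw [hn, Finset.card_eq_zero] at hIn
      rw [hIn, bp_empty, add_zero, hn]
      rfl
    obtain ⟨i, hi⟩ := Finset.card_pos.1 (show 0 < I.card by omega)
    have hc := Finset.card_erase_of_mem hi
    have hiI : (w + bp 2 (I.erase i)) i = 0 := by
      rw [Pi.add_apply, hI i hi, bp_not (Finset.notMem_erase i I)]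
    have hwe := hw.add (fs_bp 2 (I.erase i))
    have t1 := two_le (P := P) hwe (d + 1) hiI
    have t2 := two_drop hP hwe (d := d + 1) hiI
    rw [bp_split hi] at t1 t2
    by_cases hexc : ∃ J ⊆ I, J ≠ I ∧ H P (w + bp 2 J) (d + 1) = 1 ∧ Exc P w (d + 1) J.card
    · -- the exceptional case with fewer points
      left
      obtain ⟨J, hJ, hJI, e1, e2⟩ := hexc
      obtain ⟨j, hj, hjJ⟩ : ∃ j ∈ I, j ∉ J := by
        by_contra hcon
        push Not at hcon
        exact hJI (Finset.Subset.antisymm hJ hcon)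
      have hlt : J.card < I.card := Finset.card_lt_card
        ⟨hJ, fun h => hjJ (h hj)⟩
      have hjw : (w + bp 2 J) j = 0 := by
        rw [Pi.add_apply, hI j hj, bp_not hjJ]
      have t3 := two_drop hP (hw.add (fs_bp 2 J)) (d := d + 1) hjw
      have t4 : H P (w + bp 2 I) (d + 1) ≤ H P (w + bp 2 J + bp 2 {j}) (d + 1) := H_le fun l => by
        simp only [Pi.add_apply]
        by_cases hl : l = j
        · subst hl
          rw [bp_not hjJ, bp_self, bp_mem hj]
        · rw [bp_ne hl]
          have := bp_mono (m := 2) hJ l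
          omega
      have := e2.1
      omega
    push Not at hexc
    have hns : ∀ J ⊆ I, J ≠ I → H P (w + bp 2 J) (d + 1) = H P w (d + 1) - 3 * J.card := by
      intro J hJ hJI
      have hlt : J.card < I.card := by
        refine Finset.card_lt_card ⟨hJ, fun h => hJI (Finset.Subset.antisymm hJ h)⟩
      rcases ih J.card (by omega) J rfl (fun j hj => hI j (hJ hj)) with h | ⟨h, h'⟩
      · exact h
      · exact absurd h' (hexc J hJ hJI h)
    have he := hns (I.erase i) (Finset.erase_subset i I) (fun h => by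
      have := Finset.notMem_erase i I
      rw [h] at this
      exact this hi)
    rcases Nat.eq_zero_or_pos (H P (w + bp 2 I) (d + 1)) with h0 | h0
    · left
      omega
    have t2' := t2 h0
    by_cases hspec : H P (w + bp 2 I) (d + 1) + 3 * n = H P w (d + 1)
    · left
      omega
    right
    have hmin : ∀ J ⊆ I, J ≠ I → H P (w + bp 2 J) (d + 1) + 3 * J.card = H P w (d + 1) := by
      intro J hJ hJI
      have h4 := hns J hJ hJI
      have h5 : H P (w + bp 2 I) (d + 1) ≤ H P (w + bp 2 J) (d + 1) := H_le fun l => by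
        simp only [Pi.add_apply]
        have := bp_mono (m := 2) hJ l
        omega
      omega
    obtain ⟨a1, E, U, a2, a3, a4⟩ := first_fail hP hw h1 h2 h3 hI hmin h0 (by omega)
    refine ⟨a1, by omega, E, U, a2, a3, by rw [a4, hIn]⟩

end Pool.Agent.U479.DD
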