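import Pool.Agent.U479.DD.Nat

set_option autoImplicit false

/-!
# Dimensions of sums of classes with generic base points
-/

namespace Pool.Agent.U479.DD

open MvPolynomial Pool.Agent.W609 Pool.Agent.W609.CR Pool.Agent.TH167.SH Pool.Agent.TH167.TT
  Pool.Agent.U479.DP

variable {K : Type} [Field K] [CharZero K]

/-- A double point lowers the dimension by at least two. -/
theorem two_drop {P : ℕ → Fin 2 → K} (hP : Gen P) {w : ℕ → ℕ} (hw : Fs w) {d i : ℕ}
    (hi : w i = 0) (h1 : 1 ≤ H P (w + bp 2 {i}) d) :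
    H P (w + bp 2 {i}) d + 2 ≤ H P w d := by
  have hw2 := hw.add (fs_bp 2 {i})
  obtain ⟨A, hA, hA0⟩ := fresh hw2 (H P (w + bp 2 {i}) d - 1)
  have hwA : ∀ j ∈ A, w j = 0 := fun j hj => by
    have := hA0 j hj
    rw [Pi.add_apply] at this
    omega
  have hiA : i ∉ A := fun h => by
    have := hA0 i h
    rw [Pi.add_apply, bp_self] at this
    omega
  have e1 := simple' hP hw2 d A hA0
  have e2 : H P (w + bp 2 {i} + bp 1 A) d = 1 := by omega
  obtain ⟨f, hf, hf0⟩ := ex_mem e2.ge
  have e3 := simple' hP hw d A hwA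
  have e4 : H P (w + bp 2 {i}) d ≤ H P w d := H_le fun j => by
    rw [Pi.add_apply]
    omega
  have hw3 := hw.add (fs_bp 1 A)
  have hi3 : ∀ j ∈ ({i} : Finset ℕ), (w + bp 1 A) j = 0 := fun j hj => by
    rw [Finset.mem_singleton] at hj
    subst hj
    rw [Pi.add_apply, bp_not hiA, hi]
  have e5 := simple' hP hw3 d {i} hi3
  rw [Finset.card_singleton] at e5
  have hf' : f ∈ V P (w + bp 1 A + bp 1 {i}) d := by
    refine V_le (fun j => ?_) hf
    simp only [Pi.add_apply]
    unfold bp
    split_ifs <;> omega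
  have e6 := pos_of hf' hf0
  have e7 : H P (w + bp 1 A + bp 1 {i}) d ≠ 1 := by
    intro h
    have h2 := exact' hP (hw3.add (fs_bp 1 {i})) h hf' hf0 i
    refine h2.2 (van_mono ?_ ((mem_V.1 hf).2 i))
    simp only [Pi.add_apply, bp_self, bp_not hiA, hi]
    omega
  omega

/-- The Hopf lemma for classes with generic base points. -/
theorem hopf {P : ℕ → Fin 2 → K} (hP : Gen P) {a b : ℕ → ℕ} (ha : Fs a) (hb : Fs b) {m n : ℕ}
    (h1 : 1 ≤ H P a m) (h2 : 1 ≤ H P b n) : H P a m + H P b n ≤ H P (a + b) (m + n) + 1 := by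
  have hab := ha.add hb
  obtain ⟨A, hA, hA0⟩ := fresh hab (H P a m - 1)
  have habA := hab.add (fs_bp 1 A)
  obtain ⟨B, hB, hB0⟩ := fresh habA (H P b n - 1)
  simp only [Pi.add_apply] at hA0 hB0
  have e1 := simple' hP ha m A fun j hj => by
    have := hA0 j hj
    omega
  have e2 := simple' hP hb n B fun j hj => by
    have := hB0 j hj
    omega
  have e3 := simple' hP hab (m + n) A fun j hj => by
    rw [Pi.add_apply]
    exact hA0 j hj
  have e4 := simple' hP habA (m + n) B fun j hj => by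
    simp only [Pi.add_apply]
    exact hB0 j hj
  obtain ⟨f, hf, hf0⟩ := ex_mem (P := P) (w := a + bp 1 A) (d := m) (by omega)
  obtain ⟨g, hg, hg0⟩ := ex_mem (P := P) (w := b + bp 1 B) (d := n) (by omega)
  have e5 := pos_of (mul_mem (c := a + b + bp 1 A + bp 1 B) (k := m + n) hf hg (fun j => by
    simp only [Pi.add_apply]
    omega) rfl) (mul_ne_zero hf0 hg0)
  omega

/-- A member which does not pass through a free point. -/
theorem ex_ord0 {P : ℕ → Fin 2 → K} (hP : Gen P) {b : ℕ → ℕ} (hb : Fs b) {n x : ℕ}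
    (hx : b x = 0) (h1 : 1 ≤ H P b n) : ∃ μ ∈ V P b n, μ ≠ 0 ∧ Ord (aff (P x)) 0 μ := by
  have e1 := simple' hP hb n {x} (fun j hj => by rw [Finset.mem_singleton.1 hj, hx])
  rw [Finset.card_singleton] at e1
  have h2 : ¬ V P b n ≤ V P (b + bp 1 {x}) n := by
    intro h
    have := V_fin P (b + bp 1 {x}) n
    have h3 : H P b n ≤ H P (b + bp 1 {x}) n := Submodule.finrank_mono h
    omega
  rw [SetLike.not_le_iff_exists] at h2
  obtain ⟨μ, hμ, hμ2⟩ := h2
  refine ⟨μ, hμ, fun h => hμ2 (by rw [h]; exact Submodule.zero_mem _), van_zero _ _, fun h => ?_⟩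
  apply hμ2
  rw [mem_V] at hμ ⊢
  refine ⟨hμ.1, fun j => ?_⟩
  by_cases hj : j = x
  · rw [hj, Pi.add_apply, bp_self, hx]
    exact h
  · rw [Pi.add_apply, bp_ne hj, add_zero]
    exact hμ.2 j

/-- Conditions at a point, before and after multiplication. -/
theorem quot {P : ℕ → Fin 2 → K} {a b : ℕ → ℕ} {m n x : ℕ} {μ : MvPolynomial (Fin 3) K}
    (hμ : μ ∈ V P b n) (hμ0 : μ ≠ 0) (hx : Ord (aff (P x)) (b x) μ) (v : ℕ) :
    H P a m + H P (a + b + bp v {x}) (m + n) ≤ H P (a + b) (m + n) + H P (a + bp v {x}) m := by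
  have f1 := V_fin P (a + b) (m + n)
  have f2 := V_fin P (a + bp v {x}) m
  have h1 : img P μ a m ≤ V P (a + b) (m + n) := img_le hμ (fun j => le_of_eq (Pi.add_apply a b j)) rfl
  have h2 : V P (a + b + bp v {x}) (m + n) ≤ V P (a + b) (m + n) := V_le fun j => by
    rw [Pi.add_apply (a + b)]
    omega
  have h3 : img P μ a m ⊓ V P (a + b + bp v {x}) (m + n) ≤ img P μ (a + bp v {x}) m := by
    rintro f ⟨hf1, hf2⟩
    obtain ⟨g, hg, rfl⟩ := mem_img.1 hf1
    refine mem_img.2 ⟨g, ?_, rfl⟩
    rw [mem_V] at hg ⊢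
    refine ⟨hg.1, fun j => ?_⟩
    by_cases hj : j = x
    · subst hj
      have h4 := (mem_V.1 hf2).2 j
      rw [mul_comm] at h4
      refine van_of_mul hx ?_
      simp only [Pi.add_apply] at h4 ⊢
      refine van_mono ?_ h4
      omega
    · rw [Pi.add_apply, bp_ne hj, add_zero]
      exact hg.2 j
  have f3 : Module.Finite K ↥(img P μ a m) := Submodule.finiteDimensional_of_le h1
  have f4 := V_fin P (a + b + bp v {x}) (m + n)
  have f5 : Module.Finite K ↥(img P μ (a + bp v {x}) m) := by
    unfold img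
    infer_instance
  have h5 := Submodule.finrank_sup_add_finrank_inf_eq (img P μ a m) (V P (a + b + bp v {x}) (m + n))
  have h6 : Module.finrank K ↥(img P μ a m ⊔ V P (a + b + bp v {x}) (m + n)) ≤
      H P (a + b) (m + n) := Submodule.finrank_mono (sup_le h1 h2)
  have h7 : Module.finrank K ↥(img P μ a m ⊓ V P (a + b + bp v {x}) (m + n) : Submodule K _) ≤
      H P (a + bp v {x}) m := by
    rw [← img_rank hμ0 (a + bp v {x}) m]
    exact Submodule.finrank_mono h3
  rw [img_rank hμ0] at h5
  have h8 : Module.finrank K ↥(V P (a + b + bp v {x}) (m + n)) = H P (a + b + bp v {x}) (m + n) := rfl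
  omega

/-- The base case of the net lemma. -/
theorem net {P : ℕ → Fin 2 → K} (hP : Gen P) {a b : ℕ → ℕ} (ha : Fs a) (hb : Fs b) {m n x : ℕ}
    (hax : a x = 0) (hbx : b x = 0) (h3 : H P a m = 3) (h0 : H P (a + bp 2 {x}) m = 0)
    (hy : 1 ≤ H P b n) :
    H P b n + 5 ≤ H P (a + (a + b)) (m + (m + n)) ∧
      (2 ≤ H P b n → H P b n + 6 ≤ H P (a + (a + b)) (m + (m + n))) := by
  have hab := ha.add hb
  -- one conditions
  have p1 := hopf hP ha hb (m := m) (n := n) (by omega) hy
  obtain ⟨μ, hμ, hμ0, hμx⟩ := ex_ord0 hP hab (n := m + n) (x := x)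
    (by rw [Pi.add_apply, hax, hbx]) (by omega)
  have q1 := quot (a := a) (m := m) hμ hμ0 (by rw [Pi.add_apply, hax, hbx]; exact hμx) 2
  -- the pencil through x
  have ha1 := ha.add (fs_bp 1 {x})
  have e1 := simple' hP ha m {x} (fun j hj => by rw [Finset.mem_singleton.1 hj, hax])
  rw [Finset.card_singleton] at e1
  have e2 : H P (a + bp 1 {x}) m = 2 := by omega
  have p2 := hopf hP ha1 ha1 (m := m) (n := m) (by omega) (by omega)
  have haa := ha1.add ha1
  have p3 := hopf hP haa hb (m := m + m) (n := n) (by omega) hy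
  have e3 : a + bp 1 {x} + (a + bp 1 {x}) + b = a + (a + b) + bp 2 {x} := by
    funext j
    simp only [Pi.add_apply]
    unfold bp
    split_ifs <;> omega
  rw [e3, add_assoc m m n] at p3
  refine ⟨by omega, fun hy2 => ?_⟩
  -- the points of order two
  obtain ⟨ℓ, hℓ, hℓ0⟩ := ex_mem (P := P) (w := a + bp 1 {x}) (d := m) (by omega)
  have hℓx : Ord (aff (P x)) 1 ℓ := by
    refine ⟨?_, fun h => ?_⟩
    · have := (mem_V.1 hℓ).2 x
      rwa [Pi.add_apply, bp_self, hax, zero_add] at this
    · have h4 : ℓ ∈ V P (a + bp 2 {x}) m := by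
        rw [mem_V] at hℓ ⊢
        refine ⟨hℓ.1, fun j => ?_⟩
        by_cases hj : j = x
        · subst hj
          rw [Pi.add_apply, bp_self, hax]
          exact h
        · have := hℓ.2 j
          rwa [Pi.add_apply, bp_ne hj, add_zero] at this ⊢
      have := pos_of h4 hℓ0
      omega
  obtain ⟨ζ, hζ, hζ0, hζx⟩ := ex_ord0 hP hb (n := n) (x := x) hbx hy
  have hm := mul_mem (c := a + bp 1 {x} + b) hℓ hζ (fun j => le_of_eq (Pi.add_apply _ _ _)) rfl
  have q2 := quot (a := a + bp 1 {x}) (m := m) (x := x) hm (mul_ne_zero hℓ0 hζ0) (by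
    have := ord_mul hℓx hζx
    simp only [Pi.add_apply, bp_self, hax, hbx]
    exact this) 1
  have e4 : a + bp 1 {x} + bp 1 {x} = a + bp 2 {x} := by
    funext j
    simp only [Pi.add_apply]
    unfold bp
    split_ifs <;> omega
  have e5 : a + bp 1 {x} + (a + bp 1 {x} + b) = a + (a + b) + bp 2 {x} := by
    funext j
    simp only [Pi.add_apply]
    unfold bp
    split_ifs <;> omega
  rw [e4, h0, e5, e2] at q2
  -- order three
  have e6 := simple' hP hb n {x} (fun j hj => by rw [Finset.mem_singleton.1 hj, hbx])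
  rw [Finset.card_singleton] at e6
  have hb1 := hb.add (fs_bp 1 {x})
  have p4 := hopf hP haa hb1 (m := m + m) (n := n) (by omega) (by omega)
  have e7 : a + bp 1 {x} + (a + bp 1 {x}) + (b + bp 1 {x}) = a + (a + b) + bp 2 {x} + bp 1 {x} := by
    funext j
    simp only [Pi.add_apply]
    unfold bp
    split_ifs <;> omega
  rw [e7, add_assoc m m n] at p4
  omega

/-- **The net lemma.** -/
theorem netD {P : ℕ → Fin 2 → K} (hP : Gen P) {b g : ℕ → ℕ} (hb : Fs b) (hg : Fs g) {n : ℕ}
    (hy : 1 ≤ H P b n) (D : ℕ) : ∀ (a : ℕ → ℕ) (_ : Fs a) (m : ℕ) (_ : H P a m = D + 3)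
    (_ : ∀ (A : Finset ℕ) (x : ℕ), A.card = D → (∀ j ∈ A, a j = 0 ∧ g j = 0) → a x = 0 →
      g x = 0 → x ∉ A → H P (a + bp 1 A + bp 2 {x}) m = 0),
    H P b n + 5 + 3 * D ≤ H P (a + (a + b)) (m + (m + n)) ∧
      (2 ≤ H P b n → H P b n + 6 + 3 * D ≤ H P (a + (a + b)) (m + (m + n))) := by
  induction D with
  | zero =>
    intro a ha m h1 h2
    obtain ⟨x, hx⟩ := fresh_one ((ha.add hb).add hg)
    simp only [Pi.add_apply] at hx
    have h3 := h2 ∅ x rfl (fun j hj => absurd hj (Finset.notMem_empty j)) (by omega) (by omega)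
      (Finset.notMem_empty x)
    rw [bp_empty, add_zero] at h3
    have h4 := net hP ha hb (x := x) (by omega) (by omega) h1 h3 hy
    exact ⟨by omega, fun h => by have := h4.2 h; omega⟩
  | succ D ih =>
    intro a ha m h1 h2
    obtain ⟨x, hx⟩ := fresh_one ((ha.add hb).add hg)
    simp only [Pi.add_apply] at hx
    have hax : a x = 0 := by omega
    have hbx : b x = 0 := by omega
    have hgx : g x = 0 := by omega
    have ha1 := ha.add (fs_bp 1 {x})
    have e1 := simple' hP ha m {x} (fun j hj => by rw [Finset.mem_singleton.1 hj, hax])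
    rw [Finset.card_singleton] at e1
    have h3 := ih (a + bp 1 {x}) ha1 m (by omega) (by
      intro A x' hA hA0 hx' hbx' hxA
      have hxA' : x ∉ A := fun h => by
        have := (hA0 x h).1
        rw [Pi.add_apply, bp_self] at this
        omega
      have hx'x : x' ≠ x := fun h => by
        rw [h, Pi.add_apply, bp_self] at hx'
        omega
      have h4 := h2 (insert x A) x' (by rw [Finset.card_insert_of_notMem hxA', hA]) (by
        intro j hj
        rcases Finset.mem_insert.1 hj with rfl | hj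
        · exact ⟨hax, hgx⟩
        · have := hA0 j hj
          rw [Pi.add_apply] at this
          exact ⟨by omega, this.2⟩) (by rw [Pi.add_apply] at hx'; omega) hbx' (by
        rw [Finset.mem_insert]
        push Not
        exact ⟨hx'x, hxA⟩)
      have e2 : a + bp 1 {x} + bp 1 A = a + bp 1 (insert x A) := by
        funext j
        simp only [Pi.add_apply]
        by_cases hj : j = x
        · subst hj
          rw [bp_self, bp_not hxA', bp_mem (Finset.mem_insert_self _ _)]
        · rw [bp_ne hj]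
          by_cases hjA : j ∈ A
          · rw [bp_mem hjA, bp_mem (Finset.mem_insert_of_mem hjA)]
          · rw [bp_not hjA, bp_not (by rw [Finset.mem_insert]; push Not; exact ⟨hj, hjA⟩)]
      rw [e2]
      exact h4)
    -- the double point
    have ha2 := ha.add (fs_bp 2 {x})
    obtain ⟨A, hA, hA0⟩ := fresh ((ha2.add hb).add hg) (D + 1)
    simp only [Pi.add_apply] at hA0
    have hxA : x ∉ A := fun h => by
      have := hA0 x h
      rw [bp_self] at this
      omega
    have h4 := h2 A x hA (fun j hj => by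
      have := hA0 j hj
      exact ⟨by omega, by omega⟩) hax hgx hxA
    have e3 := simple' hP ha2 m A fun j hj => by
      have := hA0 j hj
      rw [Pi.add_apply]
      omega
    have e4 : a + bp 2 {x} + bp 1 A = a + bp 1 A + bp 2 {x} := by
      rw [add_assoc, add_comm (bp 2 {x}), ← add_assoc]
    rw [e4, h4] at e3
    have p1 := hopf hP ha hb (m := m) (n := n) (by omega) hy
    obtain ⟨μ, hμ, hμ0, hμx⟩ := ex_ord0 hP (ha.add hb) (n := m + n) (x := x)
      (by rw [Pi.add_apply, hax, hbx]) (by omega)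
    have q1 := quot (a := a) (m := m) hμ hμ0 (by rw [Pi.add_apply, hax, hbx]; exact hμx) 2
    have e5 : a + bp 1 {x} + (a + bp 1 {x} + b) = a + (a + b) + bp 2 {x} := by
      funext j
      simp only [Pi.add_apply]
      unfold bp
      split_ifs <;> omega
    rw [e5] at h3
    exact ⟨by omega, fun h => by have := h3.2 h; omega⟩

end Pool.Agent.U479.DD
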