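import Pool.Agent.U479.DD.All
import Pool.Agent.H248R5.Gen
import Pool.Agent.H248R6.Dim

set_option autoImplicit false

/-!
# Double and simple points added to a nonspecial system: finitely many points
-/

namespace Pool.Agent.U479.DD

open MvPolynomial Pool.Agent.W609 Pool.Agent.W609.CR Pool.Agent.TH167.SH Pool.Agent.TH167.TT
  Pool.Agent.U479.DP

theorem exists_gen : ∃ (K : Type) (_ : Field K) (_ : CharZero K) (P : ℕ → Fin 2 → K), Gen P := by
  refine ⟨FractionRing (MvPolynomial (ℕ × Fin 2) ℚ), inferInstance, ?_,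
    fun j k => algebraMap (MvPolynomial (ℕ × Fin 2) ℚ)
      (FractionRing (MvPolynomial (ℕ × Fin 2) ℚ)) (X (j, k)), ?_⟩
  · exact charZero_of_injective_algebraMap (R := MvPolynomial (ℕ × Fin 2) ℚ)
      (IsFractionRing.injective _ _)
  · have h1 := MvPolynomial.algebraicIndependent_X (ℕ × Fin 2) ℚ
    have h2 := h1.map' (f := IsScalarTower.toAlgHom ℚ (MvPolynomial (ℕ × Fin 2) ℚ)
      (FractionRing (MvPolynomial (ℕ × Fin 2) ℚ))) (IsFractionRing.injective _ _)
    exact h2

theorem surj_succ {K : Type} [Field K] {n : ℕ} {w : Fin n → ℕ} {P : Fin n → Fin 2 → K} {e : ℕ}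
    (h : Function.Surjective (H248R5.ev w P e)) : Function.Surjective (H248R5.ev w P (e + 1)) := by
  intro y
  obtain ⟨H, hH⟩ := h y
  refine ⟨⟨(H : MvPolynomial (Fin 3) K) * X 2, H.2.mul (isHomogeneous_X K 2)⟩, funext fun i => ?_⟩
  rw [← congrFun hH i, H248R5.ev_apply, H248R5.ev_apply]
  change Ideal.Quotient.mk _ (H248R5.tau (P i) ((H : MvPolynomial (Fin 3) K) * X 2)) = _
  rw [map_mul, H248R5.tau_X2, mul_one]

/-- The multiplicities on the set `S`. -/
def low {s : ℕ} (w : Fin s → ℕ) (S : Finset (Fin s)) : Fin s → ℕ := fun j => if j ∈ S then w j else 0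

/-- Extension by zero. -/
def ext {s : ℕ} (w : Fin s → ℕ) : ℕ → ℕ := fun j => if h : j < s then w ⟨j, h⟩ else 0

theorem ext_val {s : ℕ} (w : Fin s → ℕ) (j : Fin s) : ext w (j : ℕ) = w j := by
  unfold ext
  rw [dif_pos j.2]

theorem ext_ge {s : ℕ} (w : Fin s → ℕ) {j : ℕ} (h : s ≤ j) : ext w j = 0 := by
  unfold ext
  rw [dif_neg (by omega)]

theorem ext_fs {s : ℕ} (w : Fin s → ℕ) : Fs (ext w) := ⟨s, fun _ hj => ext_ge w hj⟩

theorem H_ext {K K' : Type} [Field K] [CharZero K] [Field K'] [CharZero K'] {s : ℕ}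
    {P : Fin s → Fin 2 → K} (hP : AlgebraicIndependent ℚ (fun ij : Fin s × Fin 2 => P ij.1 ij.2))
    {P' : ℕ → Fin 2 → K'} (hP' : Gen P') {v : ℕ → ℕ} (hv : ∀ j, s ≤ j → v j = 0) (d : ℕ) :
    H P' v d = Module.finrank K ↥(VS (fun j => aff (P j)) (fun j : Fin s => v j) d) := by
  unfold H
  rw [V_eq hv]
  exact gen_eq (P := fun j : Fin s => P' j) (gen_fin hP' s) hP (fun j : Fin s => v j) d

/-- **Double and simple points added to a nonspecial system.** -/
theorem fin_main {K : Type} [Field K] [CharZero K] {s : ℕ} {P : Fin s → Fin 2 → K}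
    (hP : AlgebraicIndependent ℚ (fun ij : Fin s × Fin 2 => P ij.1 ij.2)) {w : Fin s → ℕ}
    {S : Finset (Fin s)} (hw2 : ∀ j, j ∉ S → w j ≤ 2) {d : ℕ}
    (h : Module.finrank K ↥(VS (fun j => aff (P j)) (low w S) d) +
      ∑ j, (low w S j + 1).choose 2 = (d + 2).choose 2)
    (h3 : ∀ j ∈ S, 3 * w j < 2 * (d + 2) ∨ chi (d + 1) (low w S) < 3 * ((d : ℤ) + 2 - w j)) :
    (Module.finrank K ↥(VS (fun j => aff (P j)) w (d + 1)) : ℤ) = max 0 (chi (d + 1) w) ∨
      (Module.finrank K ↥(VS (fun j => aff (P j)) w (d + 1)) = 1 ∧ chi (d + 1) w = 0 ∧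
        ∃ (E : ℕ) (U : Fin s → ℕ), d + 1 = 2 * E ∧ (∀ j, w j = 2 * U j) ∧
          Module.finrank K ↥(VS (fun j => aff (P j)) U E) = 1) := by
  classical
  obtain ⟨K', i1, i2, P', hP'⟩ := exists_gen
  obtain ⟨W, hW⟩ : ∃ W, W = ext (low w S) := ⟨_, rfl⟩
  have hWv : ∀ j : Fin s, W j = low w S j := fun j => by rw [hW, ext_val]
  have hWg : ∀ j, s ≤ j → W j = 0 := fun j hj => by rw [hW, ext_ge _ hj]
  have hWf : Fs W := ⟨s, hWg⟩
  have hWlow : (fun j : Fin s => W j) = low w S := funext hWv
  -- the conditions in degree d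
  have hgf : ∀ (v : Fin s → ℕ) (c : ℕ), Module.finrank K ↥(VS (fun j => aff (P j)) v c) =
      Module.finrank K ↥(H248R5.forms v P c) := fun v c => by rw [vs_eq_forms]
  have hs0 : Function.Surjective (H248R5.ev (low w S) P d) := by
    refine H248R5.surj_of_ind (le_of_eq ?_)
    rw [← hgf]
    exact h
  have hs1 := surj_succ hs0
  have k1 := H248R6.finrank_of_surj hs1
  rw [← hgf] at k1
  have k0 : (d + 1 + 2).choose 2 = (d + 2).choose 2 + (d + 2) := by
    have h4 : (d + 2 + 1).choose 2 = (d + 2).choose 1 + (d + 2).choose 2 :=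
      Nat.choose_succ_succ (d + 2) 1
    rw [show d + 1 + 2 = d + 2 + 1 by omega, h4, Nat.choose_one_right]
    omega
  have H0 : H P' W d = Module.finrank K ↥(VS (fun j => aff (P j)) (low w S) d) := by
    rw [H_ext hP hP' hWg, hWlow]
  have H1 : H P' W (d + 1) = Module.finrank K ↥(VS (fun j => aff (P j)) (low w S) (d + 1)) := by
    rw [H_ext hP hP' hWg, hWlow]
  have h1 : H P' W (d + 1) = H P' W d + (d + 2) := by omega
  have h2 : ∀ p, 1 ≤ W p → H P' (fun j => W j - bp 1 {p} j) d + (d + 2) ≤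
      H P' W (d + 1) + W p := by
    intro p hp
    have hps : p < s := by
      by_contra hcon
      rw [hWg p (by omega)] at hp
      omega
    have e1 := H_ext hP hP' (v := fun j => W j - bp 1 {p} j) (fun j hj => by
      beta_reduce
      rw [hWg j hj]
      omega) d
    have hs2 : Function.Surjective (H248R5.ev (fun j : Fin s => W j - bp 1 {p} j) P d) :=
      H248R6.surj_mono (fun j => by
        rw [hWv]
        exact Nat.sub_le _ _) hs0
    have k2 := H248R6.finrank_of_surj hs2
    rw [← hgf, ← e1] at k2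
    have e2 : ∑ j : Fin s, (low w S j + 1).choose 2 =
        ∑ j : Fin s, (W j - bp 1 {p} j + 1).choose 2 + W p := by
      have e3 : ∀ j : Fin s, (low w S j + 1).choose 2 = (W j - bp 1 {p} j + 1).choose 2 +
          if j = ⟨p, hps⟩ then W p else 0 := by
        intro j
        rw [← hWv]
        by_cases hj : j = ⟨p, hps⟩
        · rw [if_pos hj, hj]
          show (W p + 1).choose 2 = (W p - bp 1 {p} p + 1).choose 2 + W p
          have h4 : (W p + 1).choose 2 = (W p).choose 1 + (W p).choose 2 :=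
            Nat.choose_succ_succ (W p) 1
          rw [bp_self, Nat.sub_add_cancel hp, h4, Nat.choose_one_right]
          omega
        · rw [if_neg hj, bp_ne (fun h => hj (Fin.ext h))]
          simp
      rw [Finset.sum_congr rfl fun j _ => e3 j, Finset.sum_add_distrib, Finset.sum_ite_eq']
      simp
    omega
  have h3' : ∀ p, 3 * W p < 2 * (d + 2) ∨ H P' W (d + 1) < 3 * (d + 2 - W p) := by
    intro p
    by_cases hp : W p = 0
    · left
      rw [hp]
      omega
    · have hps : p < s := by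
        by_contra hcon
        exact hp (hWg p (by omega))
      have hpS : (⟨p, hps⟩ : Fin s) ∈ S := by
        by_contra hcon
        apply hp
        have := hWv ⟨p, hps⟩
        unfold low at this
        rw [if_neg hcon] at this
        exact this
      have hwp : W p = w ⟨p, hps⟩ := by
        have := hWv ⟨p, hps⟩
        unfold low at this
        rw [if_pos hpS] at this
        exact this
      rcases h3 _ hpS with h4 | h4
      · left
        rw [hwp]
        exact h4
      · right
        rw [chi_cast] at h4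
        rw [hwp, H1]
        omega
  -- the double and the simple points
  obtain ⟨I, hI⟩ : ∃ I : Finset ℕ, I = (Finset.univ.filter fun j : Fin s => j ∉ S ∧ w j = 2).map
    Fin.valEmbedding := ⟨_, rfl⟩
  obtain ⟨A, hA⟩ : ∃ A : Finset ℕ, A = (Finset.univ.filter fun j : Fin s => j ∉ S ∧ w j = 1).map
    Fin.valEmbedding := ⟨_, rfl⟩
  have hIm : ∀ j : Fin s, (j : ℕ) ∈ I ↔ j ∉ S ∧ w j = 2 := by
    intro j
    rw [hI, Finset.mem_map]
    constructor
    · rintro ⟨a, ha, hab⟩
      have : a = j := Fin.ext hab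
      rw [this] at ha
      exact (Finset.mem_filter.1 ha).2
    · intro h
      exact ⟨j, Finset.mem_filter.2 ⟨Finset.mem_univ _, h⟩, rfl⟩
  have hAm : ∀ j : Fin s, (j : ℕ) ∈ A ↔ j ∉ S ∧ w j = 1 := by
    intro j
    rw [hA, Finset.mem_map]
    constructor
    · rintro ⟨a, ha, hab⟩
      have : a = j := Fin.ext hab
      rw [this] at ha
      exact (Finset.mem_filter.1 ha).2
    · intro h
      exact ⟨j, Finset.mem_filter.2 ⟨Finset.mem_univ _, h⟩, rfl⟩
  have hIs : ∀ j ∈ I, j < s := by
    intro j hj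
    rw [hI, Finset.mem_map] at hj
    obtain ⟨a, -, ha⟩ := hj
    rw [← ha]
    exact a.2
  have hAs : ∀ j ∈ A, j < s := by
    intro j hj
    rw [hA, Finset.mem_map] at hj
    obtain ⟨a, -, ha⟩ := hj
    rw [← ha]
    exact a.2
  have hW0 : ∀ j : Fin s, j ∉ S → W j = 0 := fun j hj => by
    rw [hWv]
    exact if_neg hj
  have hIW : ∀ j ∈ I, W j = 0 := fun j hj => hW0 ⟨j, hIs j hj⟩ ((hIm ⟨j, hIs j hj⟩).1 hj).1
  have hAW : ∀ j ∈ A, (W + bp 2 I) j = 0 := fun j hj => by
    have h4 := (hAm ⟨j, hAs j hj⟩).1 hj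
    rw [Pi.add_apply, hW0 ⟨j, hAs j hj⟩ h4.1, bp_not]
    intro h5
    have := (hIm ⟨j, hAs j hj⟩).1 h5
    omega
  have hall : ∀ j : Fin s, (W + bp 2 I + bp 1 A) j = w j := by
    intro j
    simp only [Pi.add_apply]
    by_cases hj : j ∈ S
    · rw [bp_not (fun h => ((hIm j).1 h).1 hj), bp_not (fun h => ((hAm j).1 h).1 hj), hWv]
      unfold low
      rw [if_pos hj, add_zero, add_zero]
    · rw [hW0 j hj]
      have h4 := hw2 j hj
      by_cases h5 : w j = 2
      · rw [bp_mem ((hIm j).2 ⟨hj, h5⟩), bp_not (fun h => by have := (hAm j).1 h; omega), h5]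
      · rw [bp_not (fun h => h5 ((hIm j).1 h).2)]
        by_cases h6 : w j = 1
        · rw [bp_mem ((hAm j).2 ⟨hj, h6⟩), h6]
        · rw [bp_not (fun h => h6 ((hAm j).1 h).2)]
          omega
  have hallg : ∀ j, s ≤ j → (W + bp 2 I + bp 1 A) j = 0 := by
    intro j hj
    simp only [Pi.add_apply]
    rw [hWg j hj, bp_not (fun h => by have := hIs j h; omega),
      bp_not (fun h => by have := hAs j h; omega)]
  have hallw : (fun j : Fin s => (W + bp 2 I + bp 1 A) j) = w := funext hall
  have T1 := H_ext hP hP' hallg (d + 1)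
  rw [hallw] at T1
  have T2 := simple' hP' (hWf.add (fs_bp 2 I)) (d + 1) A hAW
  -- the expected dimension
  have c1 : ∑ j, (w j + 1).choose 2 = ∑ j, (low w S j + 1).choose 2 + 3 * I.card + A.card := by
    have c2 : ∀ j, (w j + 1).choose 2 = (low w S j + 1).choose 2 +
        (if j ∉ S ∧ w j = 2 then 3 else 0) + (if j ∉ S ∧ w j = 1 then 1 else 0) := by
      intro j
      unfold low
      by_cases hj : j ∈ S
      · simp [hj]
      · have := hw2 j hj
        interval_cases h5 : w j <;> simp [hj]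
    rw [Finset.sum_congr rfl fun j _ => c2 j, Finset.sum_add_distrib, Finset.sum_add_distrib, hI, hA,
      Finset.card_map, Finset.card_map, Finset.card_filter, Finset.card_filter, Finset.mul_sum]
    congr 2
    refine Finset.sum_congr rfl fun j _ => ?_
    split_ifs <;> rfl
  rw [chi_cast, c1]
  rcases add_double hP' hWf h1 h2 h3' I.card I rfl hIW with h4 | ⟨h4, h5, E, U, h6, h7, h8⟩
  · left
    omega
  · by_cases hA0 : A.card = 0
    · right
      rw [Finset.card_eq_zero] at hA0
      have hUW : ∀ j, W j = 0 → U j = 0 := fun j hj => by have := h7 j; omega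
      have hUf : Fs U := hWf.le fun j => by have := h7 j; omega
      have T3 := simple' hP' hUf E I (fun j hj => hUW j (hIW j hj))
      have T4 := H_ext hP hP' (v := U + bp 1 I) (fun j hj => by
        rw [Pi.add_apply, hUW j (hWg j hj), bp_not (fun h => by have := hIs j h; omega)]) E
      have hA0' : A.card = 0 := by rw [hA0]; rfl
      refine ⟨by omega, by omega, E, fun j : Fin s => (U + bp 1 I) j, h6, fun j => ?_, by omega⟩
      have h9 := hall j
      rw [hA0] at h9
      simp only [Pi.add_apply] at h9 ⊢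
      have h10 := h7 j
      rw [bp_not (Finset.notMem_empty (j : ℕ))] at h9
      by_cases hj : (j : ℕ) ∈ I
      · rw [bp_mem hj] at h9 ⊢
        omega
      · rw [bp_not hj] at h9 ⊢
        omega
    · left
      omega

end Pool.Agent.U479.DD
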