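import Pool.Agent.U479.DD.Pencil
import Pool.Agent.TH167.SH.Irr

set_option autoImplicit false

/-!
# Double points added to a nonspecial system
-/

namespace Pool.Agent.U479.DD

open MvPolynomial Pool.Agent.W609 Pool.Agent.W609.CR Pool.Agent.TH167.SH Pool.Agent.TH167.TT
  Pool.Agent.U479.DP

variable {K : Type} [Field K]

theorem H_zero (P : ℕ → Fin 2 → K) (d : ℕ) : H P 0 d = (d + 2).choose 2 := by
  unfold H
  have h : V P 0 d = homogeneousSubmodule (Fin 3) K d := by
    ext f
    rw [mem_V, mem_homogeneousSubmodule]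
    exact ⟨fun h => h.1, fun h => ⟨h, fun i => van_zero _ _⟩⟩
  rw [h, H248R6.finrank_homog]

theorem jump_three {P : ℕ → Fin 2 → K} {c : ℕ → ℕ} {m : ℕ} (h : 1 ≤ H P c m) :
    3 ≤ H P c (m + 1) := by
  obtain ⟨f, hf, hf0⟩ := ex_mem h
  have h1 := mul_H (c := c) (k := m + 1) (a := 0) (m := 1) hf hf0 (fun j => by simp) (by omega)
  rw [H_zero] at h1
  exact h1

theorem ord_X2 (p : Fin 2 → K) : Ord (aff p) 0 (X 2 : MvPolynomial (Fin 3) K) := by
  refine ⟨van_zero _ _, fun h => ?_⟩
  have h1 := (Pool.Agent.TH167.TT.van_one).1 h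
  rw [eval_X] at h1
  exact one_ne_zero h1

/-- The dimension grows at most by the number of forms on a line. -/
theorem jump_le (P : ℕ → Fin 2 → K) (v : ℕ → ℕ) (c : ℕ) :
    H P v (c + 1) ≤ H P v c + c + 2 := by
  classical
  have hfin := V_fin P v (c + 1)
  let φ : ↥(V P v (c + 1)) →ₗ[K] (Fin (c + 2) → K) :=
    { toFun := fun f i => coeff (Finsupp.single 0 (i : ℕ) + Finsupp.single 1 (c + 1 - i)) f.1
      map_add' := fun a b => by
        funext i
        simp
      map_smul' := fun t a => by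
        funext i
        simp }
  have h1 := LinearMap.finrank_range_add_finrank_ker φ
  have h2 : Module.finrank K ↥(LinearMap.range φ) ≤ c + 2 := by
    have := Submodule.finrank_le (LinearMap.range φ)
    rwa [Module.finrank_fintype_fun_eq_card, Fintype.card_fin] at this
  have h3 : (LinearMap.ker φ).map (V P v (c + 1)).subtype ≤ img P (X 2) v c := by
    rintro _ ⟨⟨f, hf⟩, hg, rfl⟩
    have hg' : φ ⟨f, hf⟩ = 0 := hg
    have hfm := mem_V.1 hf
    have hX : X 2 ∣ f := by
      rw [X_dvd_iff_modMonomial_eq_zero]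
      ext μ
      rw [coeff_zero]
      by_cases hμ : Finsupp.single 2 1 ≤ μ
      · rw [coeff_modMonomial_of_le _ hμ]
      · rw [coeff_modMonomial_of_not_le _ hμ]
        by_contra hne
        have h4 : μ.degree = c + 1 := by
          have := hfm.1 hne
          rw [Finsupp.degree_eq_weight_one]
          exact this
        have h5 : μ 2 = 0 := by
          by_contra h6
          apply hμ
          rw [Finsupp.single_le_iff]
          omega
        have h6 : μ 0 + μ 1 = c + 1 := by
          rw [Finsupp.degree_eq_sum, Fin.sum_univ_three, h5] at h4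
          omega
        apply hne
        have h7 := congrFun hg' ⟨μ 0, by omega⟩
        have h8 : μ = Finsupp.single 0 (μ 0) + Finsupp.single 1 (c + 1 - μ 0) := by
          ext i
          fin_cases i
          · simp
          · simp
            omega
          · simpa using h5
        rw [h8]
        exact h7
    obtain ⟨g, hg2⟩ := hX
    refine mem_img.2 ⟨g, ?_, by rw [mul_comm]; exact hg2.symm⟩
    by_cases hf0 : f = 0
    · have : g = 0 := by
        rw [hf0] at hg2
        exact (mul_eq_zero.1 hg2.symm).resolve_left (X_ne_zero 2)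
      rw [this]
      exact Submodule.zero_mem _
    · have h4 := (fac_mem (u := 0) hf hf0 (isHomogeneous_X K 2) (fun j => ord_X2 (P j)) hg2).2
      simpa using h4
  have hfin2 : Module.Finite K ↥(img P (X 2) v c) := by
    have := V_fin P v c
    unfold img
    infer_instance
  have h4 := Submodule.finrank_mono h3
  rw [img_rank (X_ne_zero 2)] at h4
  have h5 : Module.finrank K ↥((LinearMap.ker φ).map (V P v (c + 1)).subtype) =
      Module.finrank K ↥(LinearMap.ker φ) :=
    LinearEquiv.finrank_eq (Submodule.equivSubtypeMap _ _).symm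
  have h6 : Module.finrank K ↥(V P v (c + 1)) = H P v (c + 1) := rfl
  omega

variable [CharZero K]

/-- A pencil of lines has one base point. -/
theorem pencil_line {P : ℕ → Fin 2 → K} (hP : Gen P) {F : MvPolynomial (Fin 3) K} {u : ℕ → ℕ}
    {x : ℕ} (h : Pen P F 1 u x) : ∃ p, u = bp 1 {p} := by
  classical
  obtain ⟨s, hs⟩ := h.fs
  have hu1 : ∀ j, u j ≤ 1 := fun j => by
    have h1 := van_le h.irr.ne_zero h.hom (h.ord j).1
    rw [Pi.add_apply] at h1
    omega
  have hT : u = bp 1 ((Finset.range s).filter fun j => u j = 1) := by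
    funext j
    by_cases hj : u j = 1
    · rw [hj, bp_mem]
      rw [Finset.mem_filter, Finset.mem_range]
      refine ⟨?_, hj⟩
      by_contra h1
      rw [hs j (by omega)] at hj
      omega
    · have hnot : j ∉ (Finset.range s).filter fun j => u j = 1 :=
        fun h1 => hj (Finset.mem_filter.1 h1).2
      rw [bp_not hnot]
      have := hu1 j
      omega
  have h2 := simple' hP (w := 0) ⟨0, fun _ _ => rfl⟩ 1
    ((Finset.range s).filter fun j => u j = 1) (fun _ _ => rfl)
  rw [zero_add, ← hT, h.dim, H_zero] at h2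
  have h3 : (1 + 2).choose 2 = 3 := rfl
  rw [h3] at h2
  obtain ⟨p, hp⟩ := Finset.card_eq_one.1 (show ((Finset.range s).filter fun j => u j = 1).card = 1
    by omega)
  exact ⟨p, by rw [hT, hp]⟩

/-- The pencil case is impossible. -/
theorem pencil_case {P : ℕ → Fin 2 → K} (hP : Gen P) {F : MvPolynomial (Fin 3) K} {e : ℕ}
    {u : ℕ → ℕ} {x : ℕ} (hF : Pen P F e u x) {w : ℕ → ℕ} (hw : Fs w) (hwx : w x = 0) {d : ℕ}
    (h1 : d + 2 ≤ H P w (d + 1))
    (h2 : ∀ p, 1 ≤ w p → H P (fun j => w j - bp 1 {p} j) d + (d + 2) ≤ H P w (d + 1) + w p)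
    (h3 : ∀ p, 3 * w p < 2 * (d + 2) ∨ H P w (d + 1) < 3 * (d + 2 - w p)) {D y E : ℕ} {U : ℕ → ℕ} (hD : 1 ≤ D) (hy : 1 ≤ y)
    (hUw : ∀ j, 2 * U j ≤ w j) (hEd : 2 * E ≤ d + 1) (hU : H P U E = D + 1)
    (hY : H P (fun j => w j - 2 * U j) (d + 1 - 2 * E) = y)
    (h0 : H P w (d + 1) + 1 = 3 * D + y)
    (ha : sq P e u U E 1 = D ∨ 2 ≤ D ∧ sq P e u U E 2 + 1 = D) : False := by
  have hUf : Fs U := hw.le fun j => by have := hUw j; omega
  have hUx : U x = 0 := by have := hUw x; omega
  have hs1 := seq_one (b := sq P e u U E) (fun k => hF.sq_conc hP hUx E k)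
    (fun k => hF.sq_grow hP hUf E k) (D := D) (by rw [sq_zero, hU]) ha
  have a1 := hs1 D le_rfl
  obtain ⟨a2, a3⟩ := sq_pos (show 1 ≤ sq P e u U E D by omega)
  obtain ⟨g, hg, hg0⟩ := ex_mem (P := P) (w := fun j => U j - D * u j) (d := E - D * e) (by omega)
  -- the second sequence
  have e1 : 2 * D * e = D * e + D * e := by ring
  have b1 : y ≤ sq P e u w (d + 1) (2 * D) := by
    unfold sq
    rw [if_pos (by omega), ← hY]
    refine mul_H (mul_mem (c := fun j => (U j - D * u j) + (U j - D * u j)) hg hg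
      (fun j => le_rfl) rfl) (mul_ne_zero hg0 hg0) (fun j => ?_) (by omega)
    have e2 : 2 * D * u j = D * u j + D * u j := by ring
    have := hUw j
    beta_reduce
    omega
  obtain ⟨c1, c2⟩ := seq_two (b := sq P e u w (d + 1)) (fun k => hF.sq_conc hP hwx (d + 1) k)
    (fun k => hF.sq_grow hP hw (d + 1) k) hD hy (by rw [sq_zero]; omega) b1
  have he := deg_pos hF.irr hF.hom
  have he1 : e = 1 := by
    by_contra hne
    have h4 : (2 * D + y - 1) * 2 ≤ (2 * D + y - 1) * e := Nat.mul_le_mul_left _ (by omega)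
    have h5 := (sq_pos c1).1
    omega
  subst he1
  obtain ⟨p, rfl⟩ := pencil_line hP hF
  -- the multiplicity at p
  have hUp : D ≤ U p := by
    by_contra hcon
    push Not at hcon
    have a4 := hs1 (D - 1) (by omega)
    obtain ⟨a5, a6⟩ := sq_pos (show 1 ≤ sq P 1 (bp 1 {p}) U E (D - 1) by omega)
    have e3 : (fun j => U j - (D - 1) * bp 1 {p} j) = fun j => U j - D * bp 1 {p} j := by
      funext j
      by_cases hj : j = p
      · rw [hj, bp_self]
        omega
      · rw [bp_ne hj]
        omega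
    rw [e3] at a6
    have h6 := jump_three (P := P) (c := fun j => U j - D * bp 1 {p} j) (m := E - D * 1) (by omega)
    rw [show E - D * 1 + 1 = E - (D - 1) * 1 by omega] at h6
    omega
  have hwp := hUw p
  have h4 := h2 p (by omega)
  have h5 := h3 p
  have e4 : sq P 1 (bp 1 {p}) w (d + 1) 1 = H P (fun j => w j - bp 1 {p} j) d := by
    unfold sq
    rw [if_pos (by omega)]
    simp
  rw [sq_zero, e4] at c2
  omega

/-- The pencil of the double component through a double point. -/
theorem double_pencil {P : ℕ → Fin 2 → K} (hP : Gen P) {U : ℕ → ℕ} (hU : Fs U) {E D x : ℕ}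
    {A : Finset ℕ} (hA : A.card = D) (hA0 : ∀ j ∈ A, U j = 0) (hx : U x = 0) (hxA : x ∉ A)
    (h1 : H P U E = D + 3) (h2 : 1 ≤ H P (U + bp 1 A + bp 2 {x}) E) :
    ∃ (F : MvPolynomial (Fin 3) K) (e : ℕ) (u : ℕ → ℕ), Pen P F e u x ∧
      sq P e u U E 2 + 1 = D + 2 := by
  classical
  have hN := hU.add (fs_bp 1 A)
  have hNx : (U + bp 1 A) x = 0 := by rw [Pi.add_apply, hx, bp_not hxA]
  have e1 := simple' hP hU E A hA0
  have e2 : H P (U + bp 1 A) E = 3 := by omega
  have e3 := two_drop hP hN hNx h2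
  have e4 : H P (U + bp 1 A + bp 2 {x}) E = 1 := by omega
  obtain ⟨f, G, h, E1, U1, A1, -, hA1, -, hU1, hGE, hfac, hf, hf0, -, hGo, hG1, -, -⟩ :=
    struct hP hN (I := {x}) (fun j hj => by rw [Finset.mem_singleton.1 hj, hNx]) (by
      intro J hJ hJne
      have : J = ∅ := by
        rcases Finset.subset_singleton_iff.1 hJ with h | h
        · exact h
        · exact absurd h hJne
      rw [this, bp_empty, add_zero, Finset.card_empty]
      omega) h2 (by
      rw [Finset.card_singleton]
      omega)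
  have hf' : f ∈ V P (U + bp 1 A + bp 2 {x}) E := V_le (fun j => by
    rw [Pi.add_apply (U + bp 1 A + bp 2 {x})]
    omega) hf
  have hG0 : G ≠ 0 := fun h => hf0 (by rw [hfac, h, zero_mul])
  have hU1f : Fs (U1 + bp 1 {x}) := by
    have h3 : H P (U1 + bp 1 {x}) E1 = 1 := hG1
    obtain ⟨e, c, u, z, -, -, hu, -, huz, -, -, -⟩ := ords hP (hN.add (fs_bp 2 {x})) e4 hf' hf0 hfac
    refine (hN.add (fs_bp 2 {x})).le fun j => ?_
    rw [← huz j, ord_unique (hGo j) (hu j)]
    omega
  obtain ⟨F, G', e, u, hF, hfac2, -, hle, -⟩ := pen_of hP hU1f (x := x)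
    (by rw [Pi.add_apply, bp_self, hU1 x (Finset.mem_singleton_self x)]) hG1 hGE hGo hG0
  refine ⟨F, e, u, hF, ?_⟩
  have hfac3 : f = F * (F * (G' * (G' * h))) := by
    rw [hfac, hfac2]
    ring
  obtain ⟨e', c, u', q, hFe, hc, hu', hq, huq, hdeg, -, r2⟩ :=
    ords hP (hN.add (fs_bp 2 {x})) e4 hf' hf0 hfac3
  have hF0 := hF.irr.ne_zero
  have hFk0 : F * (G' * (G' * h)) ≠ 0 := fun h => hf0 (by rw [hfac3, h, mul_zero])
  have hqf : Fs q := (hN.add (fs_bp 2 {x})).le fun j => by rw [← huq j]; omega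
  obtain ⟨e'', c', u'', z, hFe', -, hu'', -, huz, hdeg', -, r3⟩ :=
    ords hP hqf r2 (mem_V.2 ⟨hc, fun j => (hq j).1⟩) hFk0 rfl
  have ee : e' = e := hFe.inj_right hF.hom hF0
  have ee' : e'' = e := hFe'.inj_right hF.hom hF0
  have eu : ∀ j, u' j = (u + bp 1 {x}) j := fun j => ord_unique (hu' j) (hF.ord j)
  have eu' : ∀ j, u'' j = (u + bp 1 {x}) j := fun j => ord_unique (hu'' j) (hF.ord j)
  have hz : ∀ j, 2 * (u j + bp 1 {x} j) + z j = U j + bp 1 A j + bp 2 {x} j := fun j => by
    have h4 := huq j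
    have h5 := huz j
    rw [eu] at h4
    rw [eu'] at h5
    simp only [Pi.add_apply] at h4 h5
    omega
  have hzU : (fun j => U j - 2 * u j) + bp 1 A = z := by
    funext j
    rw [Pi.add_apply]
    have h4 := hz j
    by_cases hj : j = x
    · subst hj
      rw [bp_self, bp_self, bp_not hxA, hx, hF.ux] at h4
      rw [hx, bp_not hxA]
      omega
    · rw [bp_ne hj, bp_ne hj] at h4
      by_cases hjA : j ∈ A
      · rw [bp_mem hjA, hA0 j hjA] at h4
        rw [bp_mem hjA, hA0 j hjA]
        omega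
      · rw [bp_not hjA] at h4 ⊢
        omega
  have e5 := simple' hP (w := fun j => U j - 2 * u j) (hU.le fun j => Nat.sub_le _ _) c' A
    (fun j hj => by
      beta_reduce
      rw [hA0 j hj]
      omega)
  rw [hzU, r3] at e5
  unfold sq
  rw [if_pos (by omega), show E - 2 * e = c' by omega]
  omega

/-- **The first failing double point** of a system with independent conditions in the degree
below: only the double of a rigid curve remains. -/
theorem first_fail {P : ℕ → Fin 2 → K} (hP : Gen P) {w : ℕ → ℕ} (hw : Fs w) {d : ℕ}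
    (h1 : H P w (d + 1) = H P w d + (d + 2))
    (h2 : ∀ p, 1 ≤ w p → H P (fun j => w j - bp 1 {p} j) d + (d + 2) ≤ H P w (d + 1) + w p)
    (h3 : ∀ p, 3 * w p < 2 * (d + 2) ∨ H P w (d + 1) < 3 * (d + 2 - w p)) {I : Finset ℕ} (hI : ∀ j ∈ I, w j = 0)
    (hmin : ∀ J ⊆ I, J ≠ I → H P (w + bp 2 J) (d + 1) + 3 * J.card = H P w (d + 1))
    (hpos : 1 ≤ H P (w + bp 2 I) (d + 1))
    (hy : H P (w + bp 2 I) (d + 1) + 3 * I.card = H P w (d + 1) + 1) :
    H P (w + bp 2 I) (d + 1) = 1 ∧ ∃ (E : ℕ) (U : ℕ → ℕ), d + 1 = 2 * E ∧ (∀ j, w j = 2 * U j) ∧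
      H P U E = I.card + 1 := by
  classical
  obtain ⟨f, G, h, E, U, A, hEd, hA, hUw, hUI, hGE, hfac, hf, hf0, hf1, hGo, hG1, hUE, hY⟩ :=
    struct hP hw hI hmin hpos hy
  have hUf : Fs U := hw.le fun j => by have := hUw j; omega
  have hD : 1 ≤ I.card := by
    rcases Nat.eq_zero_or_pos I.card with h | h
    · rw [Finset.card_eq_zero] at h
      rw [h, bp_empty, add_zero, Finset.card_empty] at hy
      omega
    · exact h
  rcases Nat.lt_or_ge I.card 2 with hD2 | hD2
  · -- one point
    exfalso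
    obtain ⟨x, hx⟩ := Finset.card_eq_one.1 (show I.card = 1 by omega)
    have hxI : x ∈ I := by rw [hx]; exact Finset.mem_singleton_self x
    have hG0 : G ≠ 0 := fun h => hf0 (by rw [hfac, h, zero_mul])
    obtain ⟨F, G', e, u, hF, hfac2, heE, hle, hr⟩ := pen_of hP (v := U + bp 1 I)
      (hUf.add (fs_bp 1 I)) (x := x) (by rw [Pi.add_apply, bp_mem hxI, hUI x hxI]) hG1 hGE hGo hG0
    refine pencil_case hP hF hw (hI x hxI) (by omega) h2 h3 (D := I.card) hD hpos hUw hEd hUE hY
      (by omega) (Or.inl ?_)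
    unfold sq
    rw [if_pos (by omega), one_mul]
    have e1 : (fun j => (U + bp 1 I) j - (u + bp 1 {x}) j) = fun j => U j - 1 * u j := by
      funext j
      rw [hx, Pi.add_apply, Pi.add_apply]
      omega
    rw [e1] at hr
    omega
  -- at least two points
  by_cases hcase : ∃ (A : Finset ℕ) (x : ℕ), A.card = I.card - 2 ∧
      (∀ j ∈ A, U j = 0 ∧ w j - 2 * U j = 0) ∧ U x = 0 ∧ w x - 2 * U x = 0 ∧ x ∉ A ∧
      1 ≤ H P (U + bp 1 A + bp 2 {x}) E
  · exfalso
    obtain ⟨A, x, hA, hA0, hx, hwx, hxA, hpos2⟩ := hcase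
    obtain ⟨F, e, u, hF, hsq⟩ := double_pencil hP hUf (D := I.card - 2) hA (fun j hj => (hA0 j hj).1)
      hx hxA (by omega) hpos2
    exact pencil_case hP hF hw (by omega) (by omega) h2 h3 (D := I.card) hD hpos hUw hEd hUE hY
      (by omega) (Or.inr ⟨hD2, by omega⟩)
  · have hnet : ∀ (A : Finset ℕ) (x : ℕ), A.card = I.card - 2 →
        (∀ j ∈ A, U j = 0 ∧ (fun j => w j - 2 * U j) j = 0) → U x = 0 →
        (fun j => w j - 2 * U j) x = 0 → x ∉ A → H P (U + bp 1 A + bp 2 {x}) E = 0 := by
      intro A x hA hA0 hx hwx hxA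
      by_contra hne
      exact hcase ⟨A, x, hA, hA0, hx, hwx, hxA, by omega⟩
    have hYf : Fs (fun j => w j - 2 * U j) := hw.le fun j => Nat.sub_le _ _
    have n1 := netD hP (b := fun j => w j - 2 * U j) (g := fun j => w j - 2 * U j) hYf hYf
      (n := d + 1 - 2 * E) (by omega) (I.card - 2) U hUf E (by omega) hnet
    have e1 : U + (U + fun j => w j - 2 * U j) = w := by
      funext j
      have := hUw j
      simp only [Pi.add_apply]
      omega
    rw [e1, show E + (E + (d + 1 - 2 * E)) = d + 1 by omega, hY] at n1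
    have hy1 : H P (w + bp 2 I) (d + 1) = 1 := by
      by_contra hne
      have := n1.2 (by omega)
      omega
    have n2 := netD hP (b := 0) (g := fun j => w j - 2 * U j) ⟨0, fun _ _ => rfl⟩ hYf
      (n := 0) (by rw [H_zero]; norm_num) (I.card - 2) U hUf E (by omega) hnet
    rw [H_zero, add_zero, add_zero] at n2
    have e2 : (0 + 2).choose 2 = 1 := rfl
    rw [e2] at n2
    obtain ⟨z, hz, hz0⟩ := ex_mem (P := P) (w := fun j => w j - 2 * U j) (d := d + 1 - 2 * E)
      (by omega)
    have hd : d + 1 = 2 * E := by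
      by_contra hne
      have hE : 1 ≤ E := by
        rcases Nat.eq_zero_or_pos E with h | h
        · exfalso
          have h4 : H P U E ≤ H P 0 E := H_le fun j => Nat.zero_le _
          rw [H_zero, h] at h4
          rw [h] at hUE
          have e3 : (0 + 2).choose 2 = 1 := rfl
          omega
        · exact h
      have h4 := jump_le P (U + U) (E + E - 1)
      rw [show E + E - 1 + 1 = E + E by omega] at h4
      have h5 := mul_H (c := w) (k := d) (a := U + U) (m := E + E - 1) hz hz0 (fun j => by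
        have := hUw j
        rw [Pi.add_apply]
        omega) (by omega)
      have h6 := n2.1
      omega
    refine ⟨hy1, E, U, hd, fun j => ?_, hUE⟩
    rw [hd, Nat.sub_self] at hz
    obtain ⟨z1, z2⟩ := mem_V.1 hz
    have h4 := van_le hz0 z1 (z2 j)
    have := hUw j
    beta_reduce at h4
    omega

end Pool.Agent.U479.DD
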