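import Pool.Agent.U479.DP.Segre

set_option autoImplicit false

/-!
# Systems of plane curves with generic base points: infinitely many points at hand
-/

namespace Pool.Agent.U479.DD

open MvPolynomial Pool.Agent.W609 Pool.Agent.W609.CR Pool.Agent.TH167.SH Pool.Agent.TH167.TT
  Pool.Agent.U479.DP

/-- A sequence of generic points. -/
def Gen {K : Type} [Field K] [CharZero K] (P : ℕ → Fin 2 → K) : Prop :=
  AlgebraicIndependent ℚ (fun ij : ℕ × Fin 2 => P ij.1 ij.2)

/-- The forms of degree `d` with multiplicities `w`. -/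
noncomputable def V {K : Type} [Field K] (P : ℕ → Fin 2 → K) (w : ℕ → ℕ) (d : ℕ) :
    Submodule K (MvPolynomial (Fin 3) K) := VS (fun j : ℕ => aff (P j)) w d

/-- The dimension of the space of forms of degree `d` with multiplicities `w`. -/
noncomputable def H {K : Type} [Field K] (P : ℕ → Fin 2 → K) (w : ℕ → ℕ) (d : ℕ) : ℕ :=
  Module.finrank K ↥(V P w d)

/-- The multiplicity is `m` at the points of `A`. -/
def bp (m : ℕ) (A : Finset ℕ) : ℕ → ℕ := fun j => if j ∈ A then m else 0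

/-- Almost all multiplicities are zero. -/
def Fs (w : ℕ → ℕ) : Prop := ∃ s, ∀ j, s ≤ j → w j = 0

variable {K : Type} [Field K]

theorem mem_V {P : ℕ → Fin 2 → K} {w : ℕ → ℕ} {d : ℕ} {f : MvPolynomial (Fin 3) K} :
    f ∈ V P w d ↔ f.IsHomogeneous d ∧ ∀ j, Van (aff (P j)) (w j) f := mem_VS _ _ _ _

theorem V_fin (P : ℕ → Fin 2 → K) (w : ℕ → ℕ) (d : ℕ) : Module.Finite K ↥(V P w d) := by
  have hfin : Module.Finite K ↥(homogeneousSubmodule (Fin 3) K d) :=
    Module.Finite.iff_fg.2 (homogeneousSubmodule_fg _ _ d)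
  exact Submodule.finiteDimensional_of_le inf_le_left

theorem V_le {P : ℕ → Fin 2 → K} {w w' : ℕ → ℕ} {d : ℕ} (h : ∀ j, w' j ≤ w j) :
    V P w d ≤ V P w' d := by
  intro f hf
  rw [mem_V] at hf ⊢
  exact ⟨hf.1, fun j => van_mono (h j) (hf.2 j)⟩

theorem H_le {P : ℕ → Fin 2 → K} {w w' : ℕ → ℕ} {d : ℕ} (h : ∀ j, w' j ≤ w j) :
    H P w d ≤ H P w' d := by
  have := V_fin P w' d
  exact Submodule.finrank_mono (V_le h)

theorem pos_of {P : ℕ → Fin 2 → K} {w : ℕ → ℕ} {d : ℕ} {f : MvPolynomial (Fin 3) K}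
    (hf : f ∈ V P w d) (h0 : f ≠ 0) : 1 ≤ H P w d := by
  have := V_fin P w d
  show 0 < Module.finrank K ↥(V P w d)
  rw [Module.finrank_pos_iff]
  exact ⟨⟨⟨f, hf⟩, 0, fun h1 => h0 (congrArg Subtype.val h1)⟩⟩

theorem ex_mem {P : ℕ → Fin 2 → K} {w : ℕ → ℕ} {d : ℕ} (h : 1 ≤ H P w d) :
    ∃ f ∈ V P w d, f ≠ 0 := by
  have hf := V_fin P w d
  have h1 : Nontrivial ↥(V P w d) := Module.finrank_pos_iff.1 h
  obtain ⟨⟨f, hfm⟩, hf0⟩ := exists_ne (0 : ↥(V P w d))
  exact ⟨f, hfm, fun h => hf0 (Subtype.ext h)⟩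

theorem mul_mem {P : ℕ → Fin 2 → K} {a b c : ℕ → ℕ} {m n k : ℕ} {f g : MvPolynomial (Fin 3) K}
    (hf : f ∈ V P a m) (hg : g ∈ V P b n) (hc : ∀ j, c j ≤ a j + b j) (hk : k = m + n) :
    f * g ∈ V P c k := by
  rw [mem_V] at hf hg ⊢
  subst hk
  exact ⟨hf.1.mul hg.1, fun j => van_mono (hc j) (van_mul (hf.2 j) (hg.2 j))⟩

/-- the image of a system under multiplication -/
noncomputable def img (P : ℕ → Fin 2 → K) (h : MvPolynomial (Fin 3) K) (a : ℕ → ℕ) (m : ℕ) :
    Submodule K (MvPolynomial (Fin 3) K) := (V P a m).map (LinearMap.mulRight K h)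

theorem mem_img {P : ℕ → Fin 2 → K} {h : MvPolynomial (Fin 3) K} {a : ℕ → ℕ} {m : ℕ}
    {f : MvPolynomial (Fin 3) K} : f ∈ img P h a m ↔ ∃ g ∈ V P a m, g * h = f := by
  unfold img
  rw [Submodule.mem_map]
  rfl

theorem img_rank {P : ℕ → Fin 2 → K} {h : MvPolynomial (Fin 3) K} (h0 : h ≠ 0) (a : ℕ → ℕ)
    (m : ℕ) : Module.finrank K ↥(img P h a m) = H P a m := by
  have hinj : Function.Injective (LinearMap.mulRight K h) := by
    intro a b hab
    rw [LinearMap.mulRight_apply, LinearMap.mulRight_apply] at hab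
    exact mul_right_cancel₀ h0 hab
  exact (LinearEquiv.finrank_eq (Submodule.equivMapOfInjective _ hinj _)).symm

theorem img_le {P : ℕ → Fin 2 → K} {h : MvPolynomial (Fin 3) K} {a b c : ℕ → ℕ} {m n k : ℕ}
    (hh : h ∈ V P b n) (hc : ∀ j, c j ≤ a j + b j) (hk : k = m + n) :
    img P h a m ≤ V P c k := by
  intro f hf
  obtain ⟨g, hg, rfl⟩ := mem_img.1 hf
  exact mul_mem hg hh hc hk

theorem mul_H {P : ℕ → Fin 2 → K} {h : MvPolynomial (Fin 3) K} {a b c : ℕ → ℕ} {m n k : ℕ}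
    (hh : h ∈ V P b n) (h0 : h ≠ 0) (hc : ∀ j, c j ≤ a j + b j) (hk : k = m + n) :
    H P a m ≤ H P c k := by
  have := V_fin P c k
  rw [← img_rank h0 a m]
  exact Submodule.finrank_mono (img_le hh hc hk)

/-! ### finite support -/

theorem Fs.add {a b : ℕ → ℕ} (ha : Fs a) (hb : Fs b) : Fs (a + b) := by
  obtain ⟨s, hs⟩ := ha
  obtain ⟨t, ht⟩ := hb
  refine ⟨max s t, fun j hj => ?_⟩
  rw [Pi.add_apply, hs j (le_trans (le_max_left _ _) hj), ht j (le_trans (le_max_right _ _) hj)]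

theorem Fs.le {a b : ℕ → ℕ} (ha : Fs a) (h : ∀ j, b j ≤ a j) : Fs b := by
  obtain ⟨s, hs⟩ := ha
  exact ⟨s, fun j hj => Nat.le_zero.1 (hs j hj ▸ h j)⟩

theorem fs_bp (m : ℕ) (A : Finset ℕ) : Fs (bp m A) := by
  refine ⟨A.sup id + 1, fun j hj => ?_⟩
  unfold bp
  rw [if_neg]
  intro h
  have := Finset.le_sup (f := id) h
  simp only [id] at this
  omega

theorem bp_mem {m : ℕ} {A : Finset ℕ} {j : ℕ} (h : j ∈ A) : bp m A j = m := if_pos h

theorem bp_not {m : ℕ} {A : Finset ℕ} {j : ℕ} (h : j ∉ A) : bp m A j = 0 := if_neg h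

theorem bp_le (m : ℕ) (A : Finset ℕ) (j : ℕ) : bp m A j ≤ m := by
  unfold bp
  split_ifs <;> omega

theorem bp_self (m i : ℕ) : bp m {i} i = m := bp_mem (Finset.mem_singleton_self i)

theorem bp_ne {m i j : ℕ} (h : j ≠ i) : bp m {i} j = 0 :=
  bp_not (fun h' => h (Finset.mem_singleton.1 h'))

theorem bp_empty (m : ℕ) : bp m ∅ = 0 := by
  funext j
  exact bp_not (Finset.notMem_empty j)

/-- Free points. -/
theorem fresh {w : ℕ → ℕ} (hw : Fs w) (n : ℕ) : ∃ A : Finset ℕ, A.card = n ∧ ∀ i ∈ A, w i = 0 := by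
  obtain ⟨s, hs⟩ := hw
  refine ⟨Finset.Ico s (s + n), by rw [Nat.card_Ico]; omega, fun i hi => hs i ?_⟩
  exact (Finset.mem_Ico.1 hi).1

theorem fresh_one {w : ℕ → ℕ} (hw : Fs w) : ∃ i, w i = 0 := by
  obtain ⟨s, hs⟩ := hw
  exact ⟨s, hs s le_rfl⟩

/-! ### transfer -/

theorem V_eq {P : ℕ → Fin 2 → K} {w : ℕ → ℕ} {s : ℕ} (hs : ∀ j, s ≤ j → w j = 0) (d : ℕ) :
    V P w d = VS (fun j : Fin s => aff (P j)) (fun j : Fin s => w j) d := by
  ext f
  rw [mem_V, mem_VS]
  refine and_congr_right fun _ => ⟨fun h j => h j, fun h j => ?_⟩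
  by_cases hj : j < s
  · exact h ⟨j, hj⟩
  · rw [hs j (by omega)]
    exact van_zero _ _

theorem gen_fin [CharZero K] {P : ℕ → Fin 2 → K} (hP : Gen P) (s : ℕ) :
    AlgebraicIndependent ℚ (fun ij : Fin s × Fin 2 => P ij.1 ij.2) := by
  have h := hP.comp (fun ij : Fin s × Fin 2 => ((ij.1 : ℕ), ij.2)) (by
    rintro ⟨a, b⟩ ⟨a', b'⟩ h
    have h1 := congrArg Prod.fst h
    have h2 := congrArg Prod.snd h
    exact Prod.ext (Fin.ext h1) h2)
  exact h

theorem exact' [CharZero K] {P : ℕ → Fin 2 → K} (hP : Gen P) {w : ℕ → ℕ} (hw : Fs w) {d : ℕ}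
    (h1 : H P w d = 1) {f : MvPolynomial (Fin 3) K} (hf : f ∈ V P w d) (hf0 : f ≠ 0) (j : ℕ) :
    Ord (aff (P j)) (w j) f := by
  obtain ⟨s, hs⟩ := hw
  have hs' : ∀ i, max s (j + 1) ≤ i → w i = 0 := fun i hi => hs i (le_trans (le_max_left _ _) hi)
  have e := V_eq (P := P) hs' d
  unfold H at h1
  rw [e] at h1 hf
  exact exact_ord (P := fun j : Fin (max s (j + 1)) => P j)
    (w := fun j : Fin (max s (j + 1)) => w j) (gen_fin hP (max s (j + 1))) h1 hf hf0
    ⟨j, lt_of_lt_of_le (Nat.lt_succ_self j) (le_max_right _ _)⟩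

theorem simple' [CharZero K] {P : ℕ → Fin 2 → K} (hP : Gen P) {w : ℕ → ℕ} (hw : Fs w) (d : ℕ)
    (A : Finset ℕ) (hA : ∀ i ∈ A, w i = 0) : H P (w + bp 1 A) d = H P w d - A.card := by
  classical
  obtain ⟨s, hs⟩ := hw.add (fs_bp 1 A)
  have hs1 : ∀ j, s ≤ j → w j = 0 := fun j hj => by
    have := hs j hj
    rw [Pi.add_apply] at this
    omega
  have hs2 : ∀ j ∈ A, j < s := fun j hj => by
    by_contra h
    have := hs j (by omega)
    rw [Pi.add_apply, bp_mem hj] at this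
    omega
  obtain ⟨A', hA'⟩ : ∃ A' : Finset (Fin s), A' = Finset.univ.filter fun j : Fin s => (j : ℕ) ∈ A :=
    ⟨_, rfl⟩
  have hm : ∀ j : Fin s, j ∈ A' ↔ (j : ℕ) ∈ A := fun j => by
    rw [hA', Finset.mem_filter]
    simp
  have h1 := simple_set (P := fun j : Fin s => P j) (gen_fin hP s) (w := fun j : Fin s => w j)
    (d := d) A'
    (fun j hj => hA j ((hm j).1 hj))
  have h2 : A'.card = A.card := by
    refine Finset.card_bij (fun j _ => (j : ℕ)) (fun j hj => (hm j).1 hj)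
      (fun a _ b _ h => Fin.ext h) fun b hb => ⟨⟨b, hs2 b hb⟩, (hm _).2 hb, rfl⟩
  have e1 : (fun j : Fin s => (w + bp 1 A) (j : ℕ)) = fun j : Fin s => if j ∈ A' then 1 else
      w (j : ℕ) := by
    funext j
    by_cases hj : (j : ℕ) ∈ A
    · rw [if_pos ((hm j).2 hj), Pi.add_apply, bp_mem hj, hA _ hj]
    · rw [if_neg (fun h => hj ((hm j).1 h)), Pi.add_apply, bp_not hj, add_zero]
  unfold H
  rw [V_eq hs, V_eq hs1, ← h2, e1]
  exact h1

/-- one more condition costs at most the expected number of conditions -/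
theorem two_le {P : ℕ → Fin 2 → K} [CharZero K] {w : ℕ → ℕ} (hw : Fs w) (d : ℕ) {i : ℕ}
    (hi : w i = 0) : H P w d ≤ H P (w + bp 2 {i}) d + 3 := by
  classical
  obtain ⟨s, hs⟩ := hw.add (fs_bp 2 {i})
  have hs1 : ∀ j, s ≤ j → w j = 0 := fun j hj => by
    have := hs j hj
    rw [Pi.add_apply] at this
    omega
  have hs2 : i < s := by
    by_contra h
    have := hs i (by omega)
    rw [Pi.add_apply, bp_self] at this
    omega
  have h1 := cond_le (fun j : Fin s => P j) (fun j : Fin s => (w + bp 2 {i}) j)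
    (Finset.univ.erase ⟨i, hs2⟩) d
  unfold H
  rw [V_eq hs, V_eq hs1]
  have e1 : (fun j : Fin s => if j ∈ Finset.univ.erase (⟨i, hs2⟩ : Fin s) then
      (w + bp 2 {i}) (j : ℕ) else 0) = fun j : Fin s => w j := by
    funext j
    by_cases hj : (j : ℕ) = i
    · have : j = ⟨i, hs2⟩ := Fin.ext hj
      rw [if_neg (by rw [this]; simp), hj, hi]
    · have : j ≠ ⟨i, hs2⟩ := fun h => hj (congrArg Fin.val h)
      rw [if_pos (by simp [this]), Pi.add_apply, bp_ne hj, add_zero]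
  have e2 : ∑ j : Fin s, (if j ∈ Finset.univ.erase (⟨i, hs2⟩ : Fin s) then 0 else
      ((w + bp 2 {i}) (j : ℕ) + 1).choose 2) = 3 := by
    rw [Finset.sum_eq_single ⟨i, hs2⟩]
    · rw [if_neg (by simp), Pi.add_apply, bp_self, hi]
      rfl
    · intro j _ hj
      rw [if_pos (by simp [hj])]
    · intro h
      exact absurd (Finset.mem_univ _) h
  rw [e1, e2] at h1
  exact h1

/-- The double and simple points of a rigid reduced curve. -/
theorem tlem' [CharZero K] {P : ℕ → Fin 2 → K} (hP : Gen P) {z : ℕ → ℕ} (hz : Fs z) {d : ℕ}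
    (h1 : H P z d = 1) {f : MvPolynomial (Fin 3) K} (hf : f ∈ V P z d) (hf0 : f ≠ 0)
    (hsq : Squarefree f) {I A : Finset ℕ} (hI : ∀ j ∈ I, z j = 2) (hA : ∀ j ∈ A, z j = 1) :
    1 + 3 * I.card + A.card ≤ H P (fun j => if j ∈ I ∪ A then 0 else z j) d := by
  classical
  obtain ⟨s, hs⟩ := hz
  have hs2 : ∀ j ∈ I ∪ A, j < s := fun j hj => by
    by_contra h
    have h2 := hs j (by omega)
    rcases Finset.mem_union.1 hj with h3 | h3
    · rw [hI j h3] at h2
      omega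
    · rw [hA j h3] at h2
      omega
  have hdis : Disjoint I A := by
    rw [Finset.disjoint_left]
    intro j h2 h3
    have := hA j h3
    have := hI j h2
    omega
  unfold H at h1
  have e := V_eq (P := P) hs d
  rw [e] at h1 hf
  have h2 := tlem (P := fun j : Fin s => P j) (w := fun j : Fin s => z j) (gen_fin hP s) h1 hf hf0
    hsq
    (Finset.univ.filter fun j : Fin s => (j : ℕ) ∉ I ∪ A) (by
      intro j hj
      rw [Finset.mem_filter] at hj
      have h3 : (j : ℕ) ∈ I ∪ A := by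
        by_contra h3
        exact hj ⟨Finset.mem_univ _, h3⟩
      beta_reduce
      rcases Finset.mem_union.1 h3 with h4 | h4
      · rw [hI _ h4]
      · rw [hA _ h4]
        norm_num)
  have e1 : (fun j : Fin s => if j ∈ (Finset.univ.filter fun j : Fin s => (j : ℕ) ∉ I ∪ A) then
      z j else 0) = fun j : Fin s => (fun j : ℕ => if j ∈ I ∪ A then 0 else z j) (j : ℕ) := by
    funext j
    by_cases hj : (j : ℕ) ∈ I ∪ A
    · rw [if_neg (by simp only [Finset.mem_filter]; exact fun h => h.2 hj)]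
      beta_reduce
      rw [if_pos hj]
    · rw [if_pos (by simp only [Finset.mem_filter]; exact ⟨Finset.mem_univ _, hj⟩)]
      beta_reduce
      rw [if_neg hj]
  have hs3 : ∀ j, s ≤ j → (fun j : ℕ => if j ∈ I ∪ A then 0 else z j) j = 0 := by
    intro j hj
    beta_reduce
    split_ifs
    · rfl
    · exact hs j hj
  rw [e1, ← V_eq hs3] at h2
  refine le_trans (le_of_eq ?_) h2
  rw [add_assoc]
  congr 1
  have e3 : ∀ j : Fin s, (if j ∈ (Finset.univ.filter fun j : Fin s => (j : ℕ) ∉ I ∪ A) then 0 else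
      (z (j : ℕ) + 1).choose 2) = (if (j : ℕ) ∈ I then 3 else 0) + (if (j : ℕ) ∈ A then 1 else 0) := by
    intro j
    by_cases hj : (j : ℕ) ∈ I ∪ A
    · rw [if_neg (by simp only [Finset.mem_filter]; exact fun h => h.2 hj)]
      rcases Finset.mem_union.1 hj with h4 | h4
      · have h5 : (j : ℕ) ∉ A := fun h => (Finset.disjoint_left.1 hdis h4) h
        rw [if_pos h4, if_neg h5, hI _ h4]
        rfl
      · have h5 : (j : ℕ) ∉ I := fun h => (Finset.disjoint_left.1 hdis h) h4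
        rw [if_neg h5, if_pos h4, hA _ h4]
        rfl
    · rw [if_pos (by simp only [Finset.mem_filter]; exact ⟨Finset.mem_univ _, hj⟩)]
      rw [if_neg (fun h => hj (Finset.mem_union_left _ h)),
        if_neg (fun h => hj (Finset.mem_union_right _ h))]
  rw [Finset.sum_congr rfl fun j _ => e3 j, Finset.sum_add_distrib]
  have e4 : ∀ (T : Finset ℕ), T ⊆ I ∪ A → ∀ c : ℕ, ∑ j : Fin s, (if (j : ℕ) ∈ T then c else 0) =
      c * T.card := by
    intro T hT c
    rw [Finset.sum_ite, Finset.sum_const_zero, add_zero, Finset.sum_const, smul_eq_mul, mul_comm]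
    congr 1
    refine Finset.card_bij (fun j _ => (j : ℕ)) (fun j hj => (Finset.mem_filter.1 hj).2)
      (fun a _ b _ h => Fin.ext h) fun b hb => ⟨⟨b, hs2 b (hT hb)⟩, ?_, rfl⟩
    rw [Finset.mem_filter]
    exact ⟨Finset.mem_univ _, hb⟩
  rw [e4 I Finset.subset_union_left, e4 A Finset.subset_union_right, one_mul]

end Pool.Agent.U479.DD
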