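import Pool.Agent.U479.DD.Struct

set_option autoImplicit false

/-!
# Pencils of curves
-/

namespace Pool.Agent.U479.DD

open MvPolynomial Pool.Agent.W609 Pool.Agent.W609.CR Pool.Agent.TH167.SH Pool.Agent.TH167.TT
  Pool.Agent.U479.DP

/-- A factor of a form through a point. -/
theorem through {K : Type} [Field K] {v : Fin 3 → K} {G : MvPolynomial (Fin 3) K} (hG : G ≠ 0)
    (h : Van v 1 G) : ∃ F G' : MvPolynomial (Fin 3) K, Irreducible F ∧ G = F * G' ∧ Van v 1 F := by
  classical
  obtain ⟨s, hs, hs2⟩ := WfDvdMonoid.exists_factors G hG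
  have h1 : eval v s.prod = 0 := by
    obtain ⟨u, hu⟩ := hs2.symm
    rw [← hu, map_mul, (Pool.Agent.TH167.TT.van_one).1 h, zero_mul]
  rw [map_multiset_prod, Multiset.prod_eq_zero_iff, Multiset.mem_map] at h1
  obtain ⟨F, hF, hF0⟩ := h1
  obtain ⟨G', hG'⟩ := (Multiset.dvd_prod hF).trans hs2.dvd
  exact ⟨F, G', hs F hF, hG', (Pool.Agent.TH167.TT.van_one).2 hF0⟩

variable {K : Type} [Field K]

/-- The cofactor of a form with exact multiplicities. -/
theorem fac_mem {P : ℕ → Fin 2 → K} {w u : ℕ → ℕ} {d e : ℕ} {f G h : MvPolynomial (Fin 3) K}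
    (hf : f ∈ V P w d) (hf0 : f ≠ 0) (hG : G.IsHomogeneous e)
    (hord : ∀ j, Ord (aff (P j)) (u j) G) (hfac : f = G * h) :
    e ≤ d ∧ h ∈ V P (fun j => w j - u j) (d - e) := by
  have hfm := mem_V.1 hf
  have hhd := Pool.Agent.Chud.homog_of_dvd hfm.1 hf0 (Dvd.intro_left G hfac.symm)
  have h6 := hG.mul hhd
  rw [← hfac] at h6
  have h7 := h6.inj_right hfm.1 hf0
  refine ⟨by omega, ?_⟩
  rw [mem_V]
  refine ⟨?_, fun j => ?_⟩
  · have h8 : h.totalDegree = d - e := by omega
    rwa [h8] at hhd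
  · by_cases hw : w j ≤ u j
    · rw [Nat.sub_eq_zero_of_le hw]
      exact van_zero _ _
    · refine van_of_mul (hord j) ?_
      rw [← hfac]
      have h9 : u j + (w j - u j) = w j := by omega
      rw [h9]
      exact hfm.2 j

variable [CharZero K]

/-- A pencil whose member through the point `x` is irreducible. -/
structure Pen (P : ℕ → Fin 2 → K) (F : MvPolynomial (Fin 3) K) (e : ℕ) (u : ℕ → ℕ) (x : ℕ) :
    Prop where
  irr : Irreducible F
  hom : F.IsHomogeneous e
  ord : ∀ j, Ord (aff (P j)) ((u + bp 1 {x}) j) F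
  ux : u x = 0
  fs : Fs u
  dim : H P u e = 2

theorem Pen.mem {P : ℕ → Fin 2 → K} {F : MvPolynomial (Fin 3) K} {e : ℕ} {u : ℕ → ℕ} {x : ℕ}
    (h : Pen P F e u x) : F ∈ V P u e := by
  refine mem_V.2 ⟨h.hom, fun j => van_mono ?_ (h.ord j).1⟩
  rw [Pi.add_apply]
  omega

/-- The pencil of the irreducible component through a simple point of a rigid curve. -/
theorem pen_of {P : ℕ → Fin 2 → K} (hP : Gen P) {v : ℕ → ℕ} (hv : Fs v) {E x : ℕ}
    (hx : v x = 1) (h1 : H P v E = 1) {G : MvPolynomial (Fin 3) K} (hG : G.IsHomogeneous E)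
    (ho : ∀ j, Ord (aff (P j)) (v j) G) (hG0 : G ≠ 0) :
    ∃ (F G' : MvPolynomial (Fin 3) K) (e : ℕ) (u : ℕ → ℕ), Pen P F e u x ∧ G = F * G' ∧ e ≤ E ∧
      (∀ j, (u + bp 1 {x}) j ≤ v j) ∧
      H P (fun j => v j - (u + bp 1 {x}) j) (E - e) = 1 := by
  have hGm : G ∈ V P v E := mem_V.2 ⟨hG, fun j => (ho j).1⟩
  obtain ⟨F, G', hF, hfac, hFx⟩ := through hG0 (v := aff (P x)) (by
    have := (ho x).1
    rwa [hx] at this)
  obtain ⟨e, c, t, z, hFe, -, ht, -, htz, hdeg, r1, r2⟩ := ords hP hv h1 hGm hG0 hfac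
  have htx : t x = 1 := by
    have h2 := htz x
    have h3 : t x ≠ 0 := fun h => by
      have h4 := ht x
      rw [h] at h4
      exact h4.2 hFx
    omega
  have htf : Fs t := hv.le fun j => by rw [← htz j]; omega
  obtain ⟨u, hu⟩ : ∃ u : ℕ → ℕ, u = fun j => if j = x then 0 else t j := ⟨_, rfl⟩
  have hux : u x = 0 := by rw [hu]; exact if_pos rfl
  have hun : ∀ j, j ≠ x → u j = t j := fun j hj => by rw [hu]; exact if_neg hj
  have hut : u + bp 1 {x} = t := by
    funext j
    rw [Pi.add_apply]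
    by_cases hj : j = x
    · rw [hj, hux, bp_self, htx]
    · rw [hun j hj, bp_ne hj, add_zero]
  have huf : Fs u := htf.le fun j => by
    rw [← hut, Pi.add_apply]
    omega
  refine ⟨F, G', e, u, ⟨hF, hFe, fun j => by rw [hut]; exact ht j, hux, huf, ?_⟩, hfac, by omega,
    fun j => by rw [hut, ← htz j]; omega, ?_⟩
  · have h2 := simple' hP huf e {x} (fun j hj => by rw [Finset.mem_singleton.1 hj, hux])
    rw [hut, Finset.card_singleton] at h2
    omega
  · have h2 : (fun j => v j - (u + bp 1 {x}) j) = z := by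
      funext j
      rw [hut, ← htz j]
      omega
    rw [h2, show E - e = c by omega]
    exact r2

/-- A second member of the pencil. -/
theorem Pen.other {P : ℕ → Fin 2 → K} (hP : Gen P) {F : MvPolynomial (Fin 3) K} {e : ℕ}
    {u : ℕ → ℕ} {x : ℕ} (h : Pen P F e u x) : ∃ F' ∈ V P u e, F' ≠ 0 ∧ ¬ F ∣ F' := by
  obtain ⟨F', h1, h2, h3⟩ := ex_ord0 hP h.fs (n := e) (x := x) h.ux (by rw [h.dim]; norm_num)
  refine ⟨F', h1, h2, ?_⟩
  rintro ⟨g, hg⟩
  apply h3.2
  rw [hg]
  have h4 := (h.ord x).1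
  rw [Pi.add_apply, bp_self, h.ux, zero_add] at h4
  exact Ideal.mul_mem_right _ _ h4

theorem Pen.inter {P : ℕ → Fin 2 → K} {F F' : MvPolynomial (Fin 3) K} {e : ℕ}
    {u : ℕ → ℕ} {x : ℕ} (h : Pen P F e u x) (hF' : ¬ F ∣ F') {c : ℕ → ℕ} (hc : c x = 0) {m : ℕ}
    {f : MvPolynomial (Fin 3) K} (h1 : f ∈ img P F (fun j => c j - u j) m)
    (h2 : f ∈ img P F' (fun j => c j - u j) m) (hf0 : f ≠ 0) :
    e ≤ m ∧ f ∈ img P (F * F') (fun j => c j - u j - u j) (m - e) := by
  obtain ⟨g, hg, hgf⟩ := mem_img.1 h1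
  obtain ⟨g', hg', hg'f⟩ := mem_img.1 h2
  have hg'0 : g' ≠ 0 := fun h => hf0 (by rw [← hg'f, h, zero_mul])
  have hF0 := h.irr.ne_zero
  have h3 : F ∣ g' * F' := by
    rw [hg'f, ← hgf]
    exact Dvd.intro_left _ rfl
  obtain ⟨k, hk⟩ := (h.irr.prime.dvd_or_dvd h3).resolve_right hF'
  have h4 := fac_mem hg' hg'0 h.hom h.ord hk
  refine ⟨h4.1, mem_img.2 ⟨k, ?_, ?_⟩⟩
  · refine V_le (fun j => ?_) h4.2
    rw [Pi.add_apply]
    by_cases hj : j = x
    · rw [hj, hc]
      omega
    · rw [bp_ne hj]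
      omega
  · rw [← hg'f, hk]
    ring

/-- Concavity along a pencil. -/
theorem Pen.conc {P : ℕ → Fin 2 → K} (hP : Gen P) {F : MvPolynomial (Fin 3) K} {e : ℕ}
    {u : ℕ → ℕ} {x : ℕ} (h : Pen P F e u x) {c : ℕ → ℕ} (hc : c x = 0) (m : ℕ) :
    2 * H P (fun j => c j - u j) m ≤ H P c (m + e) +
      (if e ≤ m then H P (fun j => c j - u j - u j) (m - e) else 0) := by
  classical
  obtain ⟨F', hF'm, hF'0, hF'⟩ := h.other hP
  have hF0 := h.irr.ne_zero
  have f1 := V_fin P c (m + e)
  have h1 : img P F (fun j => c j - u j) m ≤ V P c (m + e) :=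
    img_le h.mem (fun j => by beta_reduce; omega) rfl
  have h2 : img P F' (fun j => c j - u j) m ≤ V P c (m + e) :=
    img_le hF'm (fun j => by beta_reduce; omega) rfl
  have f2 : Module.Finite K ↥(img P F (fun j => c j - u j) m) :=
    Submodule.finiteDimensional_of_le h1
  have f3 : Module.Finite K ↥(img P F' (fun j => c j - u j) m) :=
    Submodule.finiteDimensional_of_le h2
  have h5 := Submodule.finrank_sup_add_finrank_inf_eq (img P F (fun j => c j - u j) m)
    (img P F' (fun j => c j - u j) m)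
  rw [img_rank hF0, img_rank hF'0] at h5
  have h6 : Module.finrank K ↥(img P F (fun j => c j - u j) m ⊔ img P F' (fun j => c j - u j) m) ≤
      H P c (m + e) := Submodule.finrank_mono (sup_le h1 h2)
  by_cases hem : e ≤ m
  · rw [if_pos hem]
    have f4 := V_fin P (fun j => c j - u j - u j) (m - e)
    have f5 : Module.Finite K ↥(img P (F * F') (fun j => c j - u j - u j) (m - e)) := by
      unfold img
      infer_instance
    have h7 : img P F (fun j => c j - u j) m ⊓ img P F' (fun j => c j - u j) m ≤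
        img P (F * F') (fun j => c j - u j - u j) (m - e) := by
      rintro f ⟨hf1, hf2⟩
      by_cases hf0 : f = 0
      · rw [hf0]
        exact Submodule.zero_mem _
      · exact (h.inter hF' hc hf1 hf2 hf0).2
    have h8 := Submodule.finrank_mono h7
    rw [img_rank (mul_ne_zero hF0 hF'0)] at h8
    omega
  · rw [if_neg hem]
    have h7 : img P F (fun j => c j - u j) m ⊓ img P F' (fun j => c j - u j) m = ⊥ := by
      rw [eq_bot_iff]
      rintro f ⟨hf1, hf2⟩
      by_contra hf0
      exact hem (h.inter hF' hc hf1 hf2 hf0).1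
    rw [h7, finrank_bot] at h5
    omega

/-- The dimensions along a pencil. -/
noncomputable def sq (P : ℕ → Fin 2 → K) (e : ℕ) (u w : ℕ → ℕ) (d k : ℕ) : ℕ :=
  if k * e ≤ d then H P (fun j => w j - k * u j) (d - k * e) else 0

theorem sq_pos {P : ℕ → Fin 2 → K} {e d k : ℕ} {u w : ℕ → ℕ} (h : 1 ≤ sq P e u w d k) :
    k * e ≤ d ∧ sq P e u w d k = H P (fun j => w j - k * u j) (d - k * e) := by
  unfold sq at h ⊢
  by_cases h1 : k * e ≤ d
  · exact ⟨h1, if_pos h1⟩
  · rw [if_neg h1] at h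
    omega

theorem sq_zero {P : ℕ → Fin 2 → K} {e d : ℕ} {u w : ℕ → ℕ} : sq P e u w d 0 = H P w d := by
  unfold sq
  rw [if_pos (by omega)]
  simp

theorem Pen.sq_conc {P : ℕ → Fin 2 → K} (hP : Gen P) {F : MvPolynomial (Fin 3) K} {e : ℕ}
    {u : ℕ → ℕ} {x : ℕ} (h : Pen P F e u x) {w : ℕ → ℕ} (hw : w x = 0) (d k : ℕ) :
    2 * sq P e u w d (k + 1) ≤ sq P e u w d k + sq P e u w d (k + 2) := by
  rcases Nat.eq_zero_or_pos (sq P e u w d (k + 1)) with h0 | h0
  · rw [h0]
    omega
  obtain ⟨h1, h2⟩ := sq_pos h0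
  have h3 := h.conc hP (c := fun j => w j - k * u j) (by beta_reduce; rw [hw]; omega)
    (d - (k + 1) * e)
  have e1 : (k + 1) * e = k * e + e := by ring
  have e2 : (k + 2) * e = k * e + e + e := by ring
  have e3 : (fun j => (fun j => w j - k * u j) j - u j) = fun j => w j - (k + 1) * u j := by
    funext j
    have : (k + 1) * u j = k * u j + u j := by ring
    beta_reduce
    omega
  have e4 : (fun j => (fun j => w j - k * u j) j - u j - u j) = fun j => w j - (k + 2) * u j := by
    funext j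
    have : (k + 2) * u j = k * u j + u j + u j := by ring
    beta_reduce
    omega
  rw [e3, e4] at h3
  have e5 : d - (k + 1) * e + e = d - k * e := by omega
  rw [e5] at h3
  have e6 : sq P e u w d k = H P (fun j => w j - k * u j) (d - k * e) := by
    unfold sq
    rw [if_pos (by omega)]
  have e7 : sq P e u w d (k + 2) = if e ≤ d - (k + 1) * e then
      H P (fun j => w j - (k + 2) * u j) (d - (k + 1) * e - e) else 0 := by
    unfold sq
    by_cases h5 : e ≤ d - (k + 1) * e
    · rw [if_pos h5, if_pos (by omega), show d - (k + 2) * e = d - (k + 1) * e - e by omega]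
    · rw [if_neg h5, if_neg (by omega)]
  rw [h2, e6, e7]
  exact h3

theorem Pen.sq_grow {P : ℕ → Fin 2 → K} (hP : Gen P) {F : MvPolynomial (Fin 3) K} {e : ℕ}
    {u : ℕ → ℕ} {x : ℕ} (h : Pen P F e u x) {w : ℕ → ℕ} (hw : Fs w) (d k : ℕ)
    (h0 : 1 ≤ sq P e u w d (k + 1)) : sq P e u w d (k + 1) + 1 ≤ sq P e u w d k := by
  obtain ⟨h1, h2⟩ := sq_pos h0
  have e1 : (k + 1) * e = k * e + e := by ring
  have e6 : sq P e u w d k = H P (fun j => w j - k * u j) (d - k * e) := by
    unfold sq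
    rw [if_pos (by omega)]
  rw [h2] at h0
  have h3 := hopf hP (a := fun j => w j - (k + 1) * u j) (hw.le fun j => Nat.sub_le _ _) h.fs
    (m := d - (k + 1) * e) (n := e) h0 (by rw [h.dim]; norm_num)
  have h4 : H P ((fun j => w j - (k + 1) * u j) + u) (d - (k + 1) * e + e) ≤
      H P (fun j => w j - k * u j) (d - (k + 1) * e + e) := H_le fun j => by
    have : (k + 1) * u j = k * u j + u j := by ring
    rw [Pi.add_apply]
    omega
  rw [h.dim] at h3
  rw [show d - (k + 1) * e + e = d - k * e by omega] at h3 h4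
  rw [h2, e6]
  omega

/-! ### two facts about concave sequences -/

theorem seq_one {b : ℕ → ℕ} (hc : ∀ k, 2 * b (k + 1) ≤ b k + b (k + 2))
    (hg : ∀ k, 1 ≤ b (k + 1) → b (k + 1) + 1 ≤ b k) {D : ℕ} (h0 : b 0 = D + 1)
    (h1 : b 1 = D ∨ 2 ≤ D ∧ b 2 + 1 = D) : ∀ k, k ≤ D → b k + k = D + 1 := by
  have h1' : b 1 = D := by
    rcases h1 with h1 | ⟨h1, h2⟩
    · exact h1
    · have h3 : b 2 + 1 ≤ b 1 := hg 1 (by
        show 1 ≤ b 2
        omega)
      have h4 : b 1 + 1 ≤ b 0 := hg 0 (by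
        show 1 ≤ b 1
        omega)
      omega
  intro k
  induction k using Nat.strong_induction_on with
  | _ k ih =>
    intro hk
    match k, ih, hk with
    | 0, _, _ => omega
    | 1, _, _ => omega
    | (k + 2), ih, hk =>
      have h2 := ih k (by omega) (by omega)
      have h3 := ih (k + 1) (by omega) (by omega)
      have h4 := hc k
      have h5 := hg (k + 1) (by
        show 1 ≤ b (k + 2)
        omega)
      have : b (k + 1 + 1) = b (k + 2) := rfl
      omega

theorem seq_two {b : ℕ → ℕ} (hc : ∀ k, 2 * b (k + 1) ≤ b k + b (k + 2))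
    (hg : ∀ k, 1 ≤ b (k + 1) → b (k + 1) + 1 ≤ b k) {D y : ℕ} (hD : 1 ≤ D) (hy : 1 ≤ y)
    (h0 : b 0 + 1 ≤ 3 * D + y) (h1 : y ≤ b (2 * D)) :
    1 ≤ b (2 * D + y - 1) ∧ b 0 ≤ b 1 + D := by
  have g1 : ∀ t, t ≤ 2 * D → b (2 * D) + t ≤ b (2 * D - t) := by
    intro t
    induction t with
    | zero => intro _; simp
    | succ t ih =>
      intro ht
      have h2 := ih (by omega)
      have h3 := hg (2 * D - (t + 1)) (by
        rw [show 2 * D - (t + 1) + 1 = 2 * D - t by omega]
        omega)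
      rw [show 2 * D - (t + 1) + 1 = 2 * D - t by omega] at h3
      omega
  have h2 := g1 (2 * D - 1) (by omega)
  rw [show 2 * D - (2 * D - 1) = 1 by omega] at h2
  refine ⟨?_, by omega⟩
  -- the last difference is one
  have h3 : b (2 * D - 1) ≤ b (2 * D) + 1 := by
    by_contra hcon
    push Not at hcon
    have g2 : ∀ t, t + 1 ≤ 2 * D → b (2 * D - t) + 2 ≤ b (2 * D - (t + 1)) := by
      intro t
      induction t with
      | zero =>
        intro _
        simp only [Nat.sub_zero, zero_add]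
        omega
      | succ t ih =>
        intro ht
        have h4 := ih (by omega)
        have h5 := hc (2 * D - (t + 2))
        rw [show 2 * D - (t + 2) + 1 = 2 * D - (t + 1) by omega,
          show 2 * D - (t + 2) + 2 = 2 * D - t by omega] at h5
        rw [show t + 1 + 1 = t + 2 by omega]
        omega
    have g3 : ∀ t, t ≤ 2 * D → b (2 * D) + 2 * t ≤ b (2 * D - t) := by
      intro t
      induction t with
      | zero => intro _; simp
      | succ t ih =>
        intro ht
        have h4 := ih (by omega)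
        have h5 := g2 t ht
        omega
    have h6 := g3 (2 * D) le_rfl
    rw [Nat.sub_self] at h6
    omega
  have g4 : ∀ t, b (2 * D - 1 + t) ≤ b (2 * D + t) + 1 := by
    intro t
    induction t with
    | zero => simpa using h3
    | succ t ih =>
      have h5 := hc (2 * D - 1 + t)
      rw [show 2 * D - 1 + t + 1 = 2 * D + t by omega,
        show 2 * D - 1 + t + 2 = 2 * D + (t + 1) by omega] at h5
      rw [show 2 * D - 1 + (t + 1) = 2 * D + t by omega]
      omega
  have g5 : ∀ t, b (2 * D) ≤ b (2 * D + t) + t := by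
    intro t
    induction t with
    | zero => simp
    | succ t ih =>
      have h5 := g4 (t + 1)
      rw [show 2 * D - 1 + (t + 1) = 2 * D + t by omega] at h5
      omega
  have h7 := g5 (y - 1)
  rw [show 2 * D + (y - 1) = 2 * D + y - 1 by omega] at h7
  omega

end Pool.Agent.U479.DD
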