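import Pool.Agent.U479.DD.Calc

set_option autoImplicit false

/-!
# The first failing double point: all members are double along a curve
-/

namespace Pool.Agent.U479.DD

open MvPolynomial Pool.Agent.W609 Pool.Agent.W609.CR Pool.Agent.TH167.SH Pool.Agent.TH167.TT
  Pool.Agent.U479.DP

/-- The square part of a polynomial. -/
theorem sq_part {K : Type} [Field K] : ∀ (n : ℕ) (f : MvPolynomial (Fin 3) K), f.totalDegree ≤ n →
    f ≠ 0 → ∃ G Z : MvPolynomial (Fin 3) K, f = G * (G * Z) ∧ Squarefree Z := by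
  intro n
  induction n with
  | zero =>
    intro f h1 h2
    refine ⟨1, f, by ring, ?_⟩
    have h3 := totalDegree_eq_zero_iff_eq_C.1 (Nat.le_zero.1 h1)
    have h4 : coeff 0 f ≠ 0 := fun h => h2 (by rw [h3, h, C_0])
    have h5 : IsUnit f := by
      rw [h3]
      exact (IsUnit.mk0 _ h4).map C
    exact h5.squarefree
  | succ n ih =>
    intro f h1 h2
    by_cases hsq : Squarefree f
    · exact ⟨1, f, by ring, hsq⟩
    · unfold Squarefree at hsq
      push Not at hsq
      obtain ⟨x, ⟨g, hg⟩, hx⟩ := hsq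
      have hxx0 : x * x ≠ 0 := fun h => h2 (by rw [hg, h, zero_mul])
      have hx0 : x ≠ 0 := fun h => hxx0 (by rw [h, zero_mul])
      have hg0 : g ≠ 0 := fun h => h2 (by rw [hg, h, mul_zero])
      have h3 : 0 < x.totalDegree := by
        rcases Nat.eq_zero_or_pos x.totalDegree with h | h
        · exfalso
          apply hx
          have h3 := totalDegree_eq_zero_iff_eq_C.1 h
          have h4 : coeff 0 x ≠ 0 := fun h => hx0 (by rw [h3, h, C_0])
          rw [h3]
          exact (IsUnit.mk0 _ h4).map C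
        · exact h
      have h4 : f.totalDegree = x.totalDegree + x.totalDegree + g.totalDegree := by
        rw [hg, totalDegree_mul_of_isDomain hxx0 hg0, totalDegree_mul_of_isDomain hx0 hx0]
      obtain ⟨G, Z, hGZ, hZ⟩ := ih g (by omega) hg0
      exact ⟨x * G, Z, by rw [hg, hGZ]; ring, hZ⟩

variable {K : Type} [Field K] [CharZero K]

/-- Exact orders of a factor of the member of a rigid system. -/
theorem ords {P : ℕ → Fin 2 → K} (hP : Gen P) {w : ℕ → ℕ} (hw : Fs w) {d : ℕ}
    (h1 : H P w d = 1) {f G Z : MvPolynomial (Fin 3) K} (hf : f ∈ V P w d) (hf0 : f ≠ 0)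
    (hfac : f = G * Z) : ∃ (e c : ℕ) (u z : ℕ → ℕ), G.IsHomogeneous e ∧ Z.IsHomogeneous c ∧
      (∀ j, Ord (aff (P j)) (u j) G) ∧ (∀ j, Ord (aff (P j)) (z j) Z) ∧ (∀ j, u j + z j = w j) ∧
      e + c = d ∧ H P u e = 1 ∧ H P z c = 1 := by
  have hG0 : G ≠ 0 := fun h => hf0 (by rw [hfac, h, zero_mul])
  have hZ0 : Z ≠ 0 := fun h => hf0 (by rw [hfac, h, mul_zero])
  have hfm := mem_V.1 hf
  have hGe := Pool.Agent.Chud.homog_of_dvd hfm.1 hf0 (Dvd.intro _ hfac.symm)
  have hZe := Pool.Agent.Chud.homog_of_dvd hfm.1 hf0 (Dvd.intro_left _ hfac.symm)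
  choose u hu using fun j => exists_ord (p := P j) hG0 hGe
  choose z hz using fun j => exists_ord (p := P j) hZ0 hZe
  have hdeg : G.totalDegree + Z.totalDegree = d := by
    have h2 := hGe.mul hZe
    rw [← hfac] at h2
    exact h2.inj_right hfm.1 hf0
  have huz : ∀ j, u j + z j = w j := fun j => by
    have h2 := ord_mul (hu j) (hz j)
    rw [← hfac] at h2
    exact ord_unique h2 (exact' hP hw h1 hf hf0 j)
  have hGm : G ∈ V P u G.totalDegree := mem_V.2 ⟨hGe, fun j => (hu j).1⟩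
  have hZm : Z ∈ V P z Z.totalDegree := mem_V.2 ⟨hZe, fun j => (hz j).1⟩
  refine ⟨_, _, u, z, hGe, hZe, hu, hz, huz, hdeg, ?_, ?_⟩
  · have h2 := mul_H (c := w) (k := d) (a := u) (m := G.totalDegree) hZm hZ0
      (fun j => (huz j).ge) hdeg.symm
    have h3 := pos_of hGm hG0
    omega
  · have h2 := mul_H (c := w) (k := d) (a := z) (m := Z.totalDegree) hGm hG0
      (fun j => by rw [← huz j]; omega) (by omega)
    have h3 := pos_of hZm hZ0
    omega

/-- **The first failing double point.**  The common double curve of all members. -/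
theorem struct {P : ℕ → Fin 2 → K} (hP : Gen P) {w : ℕ → ℕ} (hw : Fs w) {d : ℕ} {I : Finset ℕ}
    (hI : ∀ j ∈ I, w j = 0) (hmin : ∀ J ⊆ I, J ≠ I → H P (w + bp 2 J) d + 3 * J.card = H P w d)
    (hpos : 1 ≤ H P (w + bp 2 I) d) (hy : H P (w + bp 2 I) d + 3 * I.card = H P w d + 1) :
    ∃ (f G h : MvPolynomial (Fin 3) K) (E : ℕ) (U : ℕ → ℕ) (A : Finset ℕ), 2 * E ≤ d ∧
      A.card + 1 = H P (w + bp 2 I) d ∧ (∀ j, 2 * U j ≤ w j) ∧ (∀ j ∈ I, U j = 0) ∧ G.IsHomogeneous E ∧ f = G * (G * h) ∧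
      f ∈ V P (w + bp 2 I + bp 1 A) d ∧ f ≠ 0 ∧ H P (w + bp 2 I + bp 1 A) d = 1 ∧
      (∀ j, Ord (aff (P j)) ((U + bp 1 I) j) G) ∧ H P (U + bp 1 I) E = 1 ∧
      H P U E = I.card + 1 ∧
      H P (fun j => w j - 2 * U j) (d - 2 * E) = H P (w + bp 2 I) d := by
  classical
  have hw2 := hw.add (fs_bp 2 I)
  obtain ⟨A, hA, hA0⟩ := fresh hw2 (H P (w + bp 2 I) d - 1)
  have hwA : ∀ j ∈ A, w j = 0 := fun j hj => by
    have := hA0 j hj
    rw [Pi.add_apply] at this
    omega
  have hIA : ∀ j ∈ A, j ∉ I := fun j hj h => by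
    have := hA0 j hj
    rw [Pi.add_apply, bp_mem h] at this
    omega
  have e1 := simple' hP hw2 d A hA0
  have e2 : H P (w + bp 2 I + bp 1 A) d = 1 := by omega
  obtain ⟨f, hf, hf0⟩ := ex_mem e2.ge
  obtain ⟨G, Z, hfac, hsq⟩ := sq_part _ f le_rfl hf0
  have hw3 := hw2.add (fs_bp 1 A)
  obtain ⟨E, c, u, q, hGE, hGZc, hu, hqo, huq, hdeg, r1, r2⟩ := ords hP hw3 e2 hf hf0 hfac
  have hq : Fs q := hw3.le fun j => by rw [← huq j]; omega
  have hG0 : G ≠ 0 := fun h => hf0 (by rw [hfac, h, zero_mul])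
  have hGZ0 : G * Z ≠ 0 := fun h => hf0 (by rw [hfac, h, mul_zero])
  have hZ0 : Z ≠ 0 := fun h => hGZ0 (by rw [h, mul_zero])
  have hGZm : G * Z ∈ V P q c := mem_V.2 ⟨hGZc, fun j => (hqo j).1⟩
  obtain ⟨E', c', u', z, hGE', hZc, hu', hz, huz, hdeg', -, r3⟩ := ords hP hq r2 hGZm hGZ0 rfl
  have eE : E' = E := hGE'.inj_right hGE hG0
  have eu : ∀ j, u' j = u j := fun j => ord_unique (hu' j) (hu j)
  have huuz : ∀ j, u j + u j + z j = w j + bp 2 I j + bp 1 A j := fun j => by
    have h2 := huq j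
    have h3 := huz j
    rw [eu] at h3
    simp only [Pi.add_apply] at h2
    omega
  subst eE
  have hzf : Fs z := hq.le fun j => by rw [← huz j]; omega
  have hZm : Z ∈ V P z c' := mem_V.2 ⟨hZc, fun j => (hz j).1⟩
  have hGm : G ∈ V P u E' := mem_V.2 ⟨hGE, fun j => (hu j).1⟩
  -- on the points of A
  have hA1 : ∀ j ∈ A, u j = 0 ∧ z j = 1 := fun j hj => by
    have h2 := huuz j
    rw [hwA j hj, bp_not (hIA j hj), bp_mem hj] at h2
    omega
  have hI1 : ∀ j ∈ I, u j + u j + z j = 2 := fun j hj => by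
    have h2 := huuz j
    rw [hI j hj, bp_mem hj, bp_not (fun h => hIA j h hj)] at h2
    omega
  -- the points of I which are not on G
  obtain ⟨I0, hI0⟩ : ∃ I0 : Finset ℕ, I0 = I.filter fun j => u j = 0 := ⟨_, rfl⟩
  have hI0m : ∀ j, j ∈ I0 ↔ j ∈ I ∧ u j = 0 := fun j => by rw [hI0, Finset.mem_filter]
  have hI0I : I0 ⊆ I := fun j hj => ((hI0m j).1 hj).1
  have hI0e : I0 = ∅ := by
    by_contra hne
    have h2 := tlem' hP hzf r3 hZm hZ0 hsq (I := I0) (A := A) (fun j hj => by
      have h3 := (hI0m j).1 hj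
      have h4 := hI1 j h3.1
      omega) (fun j hj => (hA1 j hj).2)
    have h3 := mul_H (c := w + bp 2 (I \ I0)) (k := d)
      (a := fun j => if j ∈ I0 ∪ A then 0 else z j) (m := c')
      (mul_mem (c := u + u) hGm hGm (fun j => le_of_eq (Pi.add_apply _ _ _)) rfl)
      (mul_ne_zero hG0 hG0) (by
        intro j
        have h4 := huuz j
        simp only [Pi.add_apply]
        by_cases hj0 : j ∈ I0
        · have h5 := hI0I hj0
          rw [hI j h5, bp_not (fun h => (Finset.mem_sdiff.1 h).2 hj0)]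
          omega
        · by_cases hjA : j ∈ A
          · rw [hwA j hjA, bp_not (fun h => hIA j hjA (Finset.mem_sdiff.1 h).1)]
            omega
          · rw [if_neg (by rw [Finset.mem_union]; push Not; exact ⟨hj0, hjA⟩)]
            by_cases hjI : j ∈ I
            · rw [bp_mem (Finset.mem_sdiff.2 ⟨hjI, hj0⟩), hI j hjI]
              have := hI1 j hjI
              omega
            · rw [bp_not (fun h => hjI (Finset.mem_sdiff.1 h).1)]
              rw [bp_not hjI, bp_not hjA] at h4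
              omega) (by omega)
    have h4 := hmin (I \ I0) Finset.sdiff_subset (by
      intro h
      obtain ⟨j, hj⟩ := Finset.nonempty_iff_ne_empty.2 hne
      have h5 : j ∈ I \ I0 := by rw [h]; exact hI0I hj
      exact (Finset.mem_sdiff.1 h5).2 hj)
    have h5 := Finset.card_sdiff_add_card_eq_card hI0I
    omega
  have hI2 : ∀ j ∈ I, u j = 1 ∧ z j = 0 := fun j hj => by
    have h2 := hI1 j hj
    have h3 : u j ≠ 0 := fun h => by
      have : j ∈ I0 := (hI0m j).2 ⟨hj, h⟩
      rw [hI0e] at this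
      exact Finset.notMem_empty j this
    omega
  obtain ⟨U, hU⟩ : ∃ U : ℕ → ℕ, U = fun j => if j ∈ I then 0 else u j := ⟨_, rfl⟩
  have hUI : ∀ j ∈ I, U j = 0 := fun j hj => by rw [hU]; exact if_pos hj
  have hUn : ∀ j, j ∉ I → U j = u j := fun j hj => by rw [hU]; exact if_neg hj
  have hUu : U + bp 1 I = u := by
    funext j
    rw [Pi.add_apply]
    by_cases hj : j ∈ I
    · rw [hUI j hj, bp_mem hj, (hI2 j hj).1]
    · rw [hUn j hj, bp_not hj, add_zero]
  have hUf : Fs U := hw.le fun j => by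
    by_cases hj : j ∈ I
    · rw [hUI j hj]
      omega
    · rw [hUn j hj]
      have h2 := huuz j
      rw [bp_not hj] at h2
      by_cases hjA : j ∈ A
      · have := (hA1 j hjA).1
        omega
      · rw [bp_not hjA] at h2
        omega
  have hwU : ∀ j, 2 * U j ≤ w j := fun j => by
    by_cases hj : j ∈ I
    · rw [hUI j hj]
      omega
    · rw [hUn j hj]
      have h2 := huuz j
      rw [bp_not hj] at h2
      by_cases hjA : j ∈ A
      · have := (hA1 j hjA).1
        omega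
      · rw [bp_not hjA] at h2
        omega
  have e3 := simple' hP hUf E' I hUI
  rw [hUu, r1] at e3
  have hzU : (fun j => w j - 2 * U j) + bp 1 A = z := by
    funext j
    rw [Pi.add_apply]
    have h2 := huuz j
    by_cases hj : j ∈ I
    · rw [hUI j hj, hI j hj, bp_not (fun h => hIA j h hj), (hI2 j hj).2]
    · rw [hUn j hj]
      rw [bp_not hj] at h2
      by_cases hjA : j ∈ A
      · rw [bp_mem hjA, (hA1 j hjA).1, (hA1 j hjA).2, hwA j hjA]
      · rw [bp_not hjA] at h2 ⊢
        omega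
  have e4 := simple' hP (w := fun j => w j - 2 * U j) (hw.le fun j => Nat.sub_le _ _) c' A
    (fun j hj => by
      beta_reduce
      rw [hwA j hj]
      omega)
  rw [hzU, r3] at e4
  have hc' : d - 2 * E' = c' := by omega
  refine ⟨f, G, Z, E', U, A, by omega, by omega, hwU, hUI, hGE, hfac, hf, hf0, e2, ?_, ?_, by omega, ?_⟩
  · intro j
    rw [hUu]
    exact hu j
  · rw [hUu]
    exact r1
  · rw [hc']
    omega

end Pool.Agent.U479.DD
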